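import Pool.Agent.Q199.BB.Stm

/-!
# Project BB: basic lemmas on invariant means
-/

namespace Pool.Agent.Q199.BB

open Filter Topology

variable {m : (G → ℝ) → ℝ}

lemma IsPos.zero (hm : IsPos m) : m (fun _ => 0) = 0 := by
  have := hm.smul 0 (fun _ => 0) (bdd_const 0)
  simpa using this

lemma IsPos.neg (hm : IsPos m) (f : G → ℝ) [Bdd f] : m (fun x => -f x) = -m f := by
  have := hm.smul (-1) f inferInstance
  simpa using this

lemma IsPos.add' (hm : IsPos m) (f g : G → ℝ) [Bdd f] [Bdd g] :
    m (fun x => f x + g x) = m f + m g := hm.add f g inferInstance inferInstance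

lemma IsPos.smul' (hm : IsPos m) (c : ℝ) (f : G → ℝ) [Bdd f] :
    m (fun x => c * f x) = c * m f := hm.smul c f inferInstance

lemma IsPos.mul_const (hm : IsPos m) (c : ℝ) (f : G → ℝ) [Bdd f] :
    m (fun x => f x * c) = m f * c := by
  rw [mul_comm, ← hm.smul c f inferInstance]
  congr 1
  funext x
  ring

lemma IsPos.sub (hm : IsPos m) (f g : G → ℝ) [Bdd f] [Bdd g] :
    m (fun x => f x - g x) = m f - m g := by
  have h := hm.add f (fun x => -g x) inferInstance inferInstance
  rw [hm.neg g] at h
  simpa [sub_eq_add_neg] using h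

lemma IsPos.mono (hm : IsPos m) (f g : G → ℝ) [Bdd f] [Bdd g] (h : ∀ x, f x ≤ g x) :
    m f ≤ m g := by
  have h1 := hm.nonneg (fun x => g x - f x) inferInstance (fun x => sub_nonneg.mpr (h x))
  rw [hm.sub g f] at h1
  linarith

lemma IsPos.abs_le_mean (hm : IsPos m) (f : G → ℝ) [Bdd f] : |m f| ≤ m (fun x => |f x|) := by
  rw [abs_le]
  constructor
  · have := hm.mono (fun x => -f x) (fun x => |f x|) (fun x => neg_le_abs (f x))
    rw [hm.neg f] at this
    linarith
  · exact hm.mono f _ (fun x => le_abs_self _)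

lemma IsPos.shift_left (hm : IsPos m) (h : G) (f : G → ℝ) [Bdd f] :
    m (fun x => f (h + x)) = m f := by
  rw [← hm.shift h f inferInstance]
  congr 1
  funext x
  rw [add_comm]

lemma IsPos.shift_sub (hm : IsPos m) (h : G) (f : G → ℝ) [Bdd f] :
    m (fun x => f (x - h)) = m f := by
  rw [← hm.shift (-h) f inferInstance]
  congr 1
  funext x
  rw [sub_eq_add_neg]

lemma IsPos.sum (hm : IsPos m) {ι : Type*} (s : Finset ι) (f : ι → G → ℝ)
    (h : ∀ i ∈ s, Bdd (f i)) : m (fun x => ∑ i ∈ s, f i x) = ∑ i ∈ s, m (f i) := by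
  classical
  induction s using Finset.induction_on with
  | empty => simpa using hm.zero
  | insert a s ha ih =>
    have h1 : Bdd (f a) := h a (Finset.mem_insert_self _ _)
    have h2 : Bdd (fun x => ∑ i ∈ s, f i x) :=
      bdd_sum s f (fun i hi => h i (Finset.mem_insert_of_mem hi))
    rw [Finset.sum_insert ha, ← ih (fun i hi => h i (Finset.mem_insert_of_mem hi)),
      ← hm.add _ _ h1 h2]
    congr 1
    funext x
    rw [Finset.sum_insert ha]

lemma IsMean.const (hm : IsMean m) (c : ℝ) : m (fun _ => c) = c := by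
  have := hm.smul c (fun _ => 1) (bdd_const 1)
  rw [hm.one] at this
  simpa using this

lemma bdd_of_abs_le {f : G → ℝ} {C : ℝ} (h : ∀ x, |f x| ≤ C) : Bdd f := ⟨C, h⟩

lemma IsMean.le_of_le (hm : IsMean m) {f : G → ℝ} [Bdd f] {C : ℝ} (h : ∀ x, f x ≤ C) :
    m f ≤ C := by
  have := hm.mono f (fun _ => C) h
  rwa [hm.const] at this

lemma IsMean.abs_le (hm : IsMean m) {f : G → ℝ} {C : ℝ} (h : ∀ x, |f x| ≤ C) : |m f| ≤ C := by
  have := bdd_of_abs_le h
  exact (hm.abs_le_mean f).trans (hm.le_of_le h)

/-- Cauchy-Schwarz. -/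
lemma IsPos.cauchy (hm : IsPos m) (f g : G → ℝ) [Bdd f] [Bdd g] :
    (m (fun x => f x * g x)) ^ 2 ≤ m (fun x => f x ^ 2) * m (fun x => g x ^ 2) := by
  have key : ∀ t : ℝ, 0 ≤ m (fun x => g x ^ 2) * (t * t) + (2 * m (fun x => f x * g x)) * t +
      m (fun x => f x ^ 2) := by
    intro t
    have h1 := hm.nonneg (fun x => (f x + t * g x) ^ 2) inferInstance (fun x => sq_nonneg _)
    have h2 : (fun x => (f x + t * g x) ^ 2) =
        fun x => f x ^ 2 + ((2 * t) * (f x * g x) + (t * t) * (g x ^ 2)) := by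
      funext x; ring
    rw [h2, hm.add' (fun x => f x ^ 2) (fun x => (2 * t) * (f x * g x) + (t * t) * (g x ^ 2)),
      hm.add' (fun x => (2 * t) * (f x * g x)) (fun x => (t * t) * (g x ^ 2)),
      hm.smul' (2 * t) (fun x => f x * g x), hm.smul' (t * t) (fun x => g x ^ 2)] at h1
    linarith
  have := discrim_le_zero key
  rw [discrim] at this
  nlinarith

lemma IsMean.sq_le (hm : IsMean m) (f : G → ℝ) [Bdd f] : (m f) ^ 2 ≤ m (fun x => f x ^ 2) := by
  have := hm.cauchy f (fun _ => 1)
  simp only [mul_one, one_pow] at this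
  rw [hm.one, mul_one] at this
  exact this

/-- The inner integral is bounded. -/
lemma bdd_inner (hm : IsMean m) (F : G → G → ℝ) {C : ℝ} (h : ∀ b y, |F b y| ≤ C) :
    Bdd (fun b => m (F b)) := ⟨C, fun b => hm.abs_le (h b)⟩

lemma bdd_inner2 (hm : IsMean m) (g h : G → ℝ) [hg : Bdd g] [hh : Bdd h] :
    Bdd (fun b => m (fun y => g y * h (y + b))) := by
  obtain ⟨C, hC⟩ := hg.out
  obtain ⟨D, hD⟩ := hh.out
  refine bdd_inner hm (fun b y => g y * h (y + b)) (C := C * D) (fun b y => ?_)
  rw [abs_mul]
  exact mul_le_mul (hC y) (hD _) (abs_nonneg _) ((abs_nonneg _).trans (hC y))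

lemma chi_nonneg (A : Set G) (x : G) : 0 ≤ chi A x := by
  unfold chi; split_ifs <;> norm_num

lemma chi_le_one (A : Set G) (x : G) : chi A x ≤ 1 := by
  unfold chi; split_ifs <;> norm_num

lemma chi_of_mem {A : Set G} {x : G} (h : x ∈ A) : chi A x = 1 := by
  unfold chi; rw [if_pos h]

lemma chi_of_notMem {A : Set G} {x : G} (h : x ∉ A) : chi A x = 0 := by
  unfold chi; rw [if_neg h]

lemma abs_chi_le (A : Set G) (x : G) : |chi A x| ≤ 1 := by
  rw [abs_of_nonneg (chi_nonneg A x)]
  exact chi_le_one A x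

lemma bdd_cnd (hm : IsMean m) (H : AddSubgroup G) (f : G → ℝ) [hf : Bdd f] :
    Bdd (cnd m H f) := by
  obtain ⟨C, hC⟩ := hf.out
  refine ⟨H.index * C, fun y => ?_⟩
  unfold cnd
  rw [abs_mul, abs_of_nonneg (Nat.cast_nonneg _)]
  refine mul_le_mul_of_nonneg_left (hm.abs_le (fun x => ?_)) (Nat.cast_nonneg _)
  rw [abs_mul]
  have h1 := mul_le_mul (hC x) (abs_chi_le (H : Set G) (x - y)) (abs_nonneg _)
    ((abs_nonneg _).trans (hC x))
  rwa [mul_one] at h1

lemma cnd_periodic (H : AddSubgroup G) (f : G → ℝ) {k : G} (hk : k ∈ H) (y : G) :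
    cnd m H f (y + k) = cnd m H f y := by
  unfold cnd
  congr 2
  funext x
  congr 1
  unfold chi
  have : (x - (y + k) ∈ (H : Set G)) ↔ (x - y ∈ (H : Set G)) := by
    have e : x - (y + k) = (x - y) - k := by abel
    rw [e, SetLike.mem_coe, SetLike.mem_coe]
    constructor
    · intro h'
      have := H.add_mem h' hk
      rwa [sub_add_cancel] at this
    · intro h'
      exact H.sub_mem h' hk
  by_cases h : x - y ∈ (H : Set G)
  · rw [if_pos (this.mpr h), if_pos h]
  · rw [if_neg (fun h' => h (this.mp h')), if_neg h]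

lemma emb_add (n : ℕ) (v w : Fin n → ZMod 7) : emb n (v + w) = emb n v + emb n w := by
  unfold emb
  rw [← Finset.sum_add_distrib]
  refine Finset.sum_congr rfl (fun i _ => ?_)
  rw [Pi.add_apply, Finsupp.single_add]

lemma emb_zero (n : ℕ) : emb n 0 = 0 := by
  unfold emb
  simp

lemma pr_emb (a : ℕ → ZMod 7) (n : ℕ) (w : Fin n → ZMod 7) :
    pr a (emb n w) = ∑ i : Fin n, a i * w i := by
  unfold emb pr
  rw [map_sum]
  refine Finset.sum_congr rfl (fun i _ => ?_)
  simp

/-- `m (avg n f) = m f`. -/
lemma IsMean.avg_eq (hm : IsMean m) (n : ℕ) (f : G → ℝ) [Bdd f] : m (avg n f) = m f := by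
  have h1 : m (avg n f) = ((7 : ℝ) ^ n)⁻¹ * m (fun y => ∑ w : Fin n → ZMod 7, f (y + emb n w)) := by
    have := bdd_sum (Finset.univ : Finset (Fin n → ZMod 7)) (fun w y => f (y + emb n w))
      (fun i _ => bdd_shift f _)
    exact hm.smul _ _ this
  rw [h1, hm.sum Finset.univ (fun (w : Fin n → ZMod 7) y => f (y + emb n w))
    (fun i _ => bdd_shift f _)]
  have h2 : ∀ w : Fin n → ZMod 7, m (fun y => f (y + emb n w)) = m f :=
    fun w => hm.shift _ f inferInstance
  rw [Finset.sum_congr rfl (fun w _ => h2 w), Finset.sum_const, Finset.card_univ]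
  have hc : Fintype.card (Fin n → ZMod 7) = 7 ^ n := by simp
  rw [hc, nsmul_eq_mul]
  push_cast
  field_simp

/-- Finite sets are null. -/
lemma IsMean.finset_null (hm : IsMean m) (s : Finset G) : m (chi (s : Set G)) = 0 := by
  classical
  -- one point
  have h0 : ∀ p : G, m (chi {p}) = 0 := by
    intro p
    have hshift : ∀ q : G, m (chi {q}) = m (chi {p}) := by
      intro q
      rw [← hm.shift (p - q) (chi {p}) inferInstance]
      congr 1
      funext x
      unfold chi
      by_cases hx : x = q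
      · subst hx; simp
      · have : x + (p - q) ≠ p := by
          intro h
          apply hx
          have h' : x + (p - q) - (p - q) = p - (p - q) := by rw [h]
          simpa using h'
        simp [hx, this]
    have hnn : 0 ≤ m (chi {p}) := hm.nonneg _ inferInstance (chi_nonneg _)
    by_contra hne
    have hpos : 0 < m (chi {p}) := lt_of_le_of_ne hnn (Ne.symm hne)
    obtain ⟨k, hk⟩ := exists_nat_gt (1 / m (chi {p}))
    -- `k` different points
    let q : ℕ → G := fun i => Finsupp.single i 1
    have h10 : (1 : ZMod 7) ≠ 0 := by decide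
    have hq : Function.Injective q := by
      intro i j hij
      exact Finsupp.single_left_injective h10 hij
    have hsum : m (fun x => ∑ i ∈ Finset.range k, chi {q i} x) = k * m (chi {p}) := by
      rw [hm.sum (Finset.range k) (fun i => chi {q i}) (fun i _ => inferInstance)]
      rw [Finset.sum_congr rfl (fun i _ => hshift (q i))]
      simp
    have hb : Bdd (fun x => ∑ i ∈ Finset.range k, chi {q i} x) :=
      bdd_sum _ _ (fun i _ => inferInstance)
    have hle : m (fun x => ∑ i ∈ Finset.range k, chi {q i} x) ≤ 1 := by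
      refine hm.le_of_le (fun x => ?_)
      by_cases hx : ∃ i ∈ Finset.range k, x = q i
      · obtain ⟨i, hi, rfl⟩ := hx
        rw [Finset.sum_eq_single i]
        · exact chi_le_one _ _
        · intro j _ hji
          exact chi_of_notMem (fun h => hji (hq (by simpa using h.symm)))
        · intro h; exact absurd hi h
      · push Not at hx
        rw [Finset.sum_eq_zero]
        · norm_num
        · intro i hi
          exact chi_of_notMem (by simpa using hx i hi)
    rw [hsum] at hle
    rw [div_lt_iff₀ hpos] at hk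
    linarith
  induction s using Finset.induction_on with
  | empty =>
    have : chi ((∅ : Finset G) : Set G) = fun _ => 0 := by
      funext x; exact chi_of_notMem (by simp)
    rw [this]
    exact hm.zero
  | insert a s ha ih =>
    have : chi ((insert a s : Finset G) : Set G) = fun x => chi {a} x + chi (s : Set G) x := by
      funext x
      unfold chi
      by_cases h1 : x = a
      · subst h1; simp [ha]
      · simp [h1]
    rw [this, hm.add', h0 a, ih, add_zero]

end Pool.Agent.Q199.BB
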