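import Pool.Agent.Q199.BB.Stm

/-!
# Project BB: construction of `B` from the step, and the reduction of the main theorem
-/

namespace Pool.Agent.Q199.BB

open Filter Topology

/-- `B + B ⊆ A` for an infinite `B`. -/
def HasBB {K : Type*} [AddCommGroup K] (A : Set K) : Prop :=
  ∃ B : Set K, B.Infinite ∧ ∀ x ∈ B, ∀ y ∈ B, x + y ∈ A

/-- Construction of the infinite set from the step. -/
theorem build {m : (G → ℝ) → ℝ} (A : Set G)
    (hstep : ∀ C : Set G, Pos m A C → ∀ s : Finset G, ∃ b ∈ C, b ∉ s ∧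
      Pos m A {y | y ∈ C ∧ y + b ∈ A})
    (h0 : Pos m A {x | 2 • x ∈ A}) : HasBB A := by
  classical
  -- states
  let St := {p : Set G × Finset G // Pos m A p.1}
  have hs : ∀ p : St, ∃ b : G, b ∈ p.1.1 ∧ b ∉ p.1.2 ∧ Pos m A {y | y ∈ p.1.1 ∧ y + b ∈ A} := by
    intro p
    obtain ⟨b, hb, hbs, hP⟩ := hstep p.1.1 p.2 p.1.2
    exact ⟨b, hb, hbs, hP⟩
  choose pick hpick using hs
  let nxt : St → St := fun p =>
    ⟨({y | y ∈ p.1.1 ∧ y + pick p ∈ A}, insert (pick p) p.1.2), (hpick p).2.2⟩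
  let st : ℕ → St := fun n => nxt^[n] ⟨({x | 2 • x ∈ A}, ∅), h0⟩
  have hst : ∀ n, st (n + 1) = nxt (st n) := fun n => Function.iterate_succ_apply' _ _ _
  let b : ℕ → G := fun n => pick (st n)
  have hmem : ∀ n, b n ∈ (st n).1.1 := fun n => (hpick (st n)).1
  have hnew : ∀ n, b n ∉ (st n).1.2 := fun n => (hpick (st n)).2.1
  have hC : ∀ i n, i < n → (st n).1.1 ⊆ {y | y + b i ∈ A} ∧ b i ∈ (st n).1.2 := by
    intro i n hin
    induction n with
    | zero => omega
    | succ n ih =>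
      rcases Nat.lt_succ_iff_lt_or_eq.mp hin with h | h
      · obtain ⟨h1, h2⟩ := ih h
        rw [hst]
        refine ⟨fun y hy => h1 hy.1, Finset.mem_insert_of_mem h2⟩
      · subst h
        rw [hst]
        refine ⟨fun y hy => hy.2, Finset.mem_insert_self _ _⟩
  have hC0 : ∀ n, (st n).1.1 ⊆ {x | 2 • x ∈ A} := by
    intro n
    induction n with
    | zero => exact fun y hy => hy
    | succ n ih => rw [hst]; exact fun y hy => ih hy.1
  have hinj : Function.Injective b := by
    intro i j hij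
    rcases lt_trichotomy i j with h | h | h
    · exact absurd ((hC i j h).2) (by rw [hij]; exact hnew j)
    · exact h
    · exact absurd ((hC j i h).2) (by rw [← hij]; exact hnew i)
  refine ⟨Set.range b, Set.infinite_range_of_injective hinj, ?_⟩
  rintro _ ⟨i, rfl⟩ _ ⟨j, rfl⟩
  rcases lt_trichotomy i j with h | h | h
  · have := (hC i j h).1 (hmem j)
    rw [Set.mem_ofPred_eq, add_comm] at this
    exact this
  · subst h
    have := hC0 i (hmem i)
    rw [Set.mem_ofPred_eq, two_nsmul] at this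
    exact this
  · exact (hC j i h).1 (hmem i)

/-- Passing from `A/k` back to `A`. -/
lemma hasBB_of_smul {A : Set G} (k : ℕ) (hk : Function.Injective (fun x : G => k • x))
    (h : HasBB {x | k • x ∈ A}) : HasBB A := by
  obtain ⟨B, hB, h1⟩ := h
  refine ⟨(fun x => k • x) '' B, hB.image hk.injOn, ?_⟩
  rintro _ ⟨x, hx, rfl⟩ _ ⟨y, hy, rfl⟩
  have := h1 x hx y hy
  rwa [Set.mem_ofPred_eq, smul_add] at this

lemma seven (x : G) : 7 • x = 0 := by
  ext i
  simp only [Finsupp.smul_apply, Finsupp.coe_zero, Pi.zero_apply, nsmul_eq_mul]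
  have : ((7 : ℕ) : ZMod 7) = 0 := by decide
  rw [this, zero_mul]

lemma eight (x : G) : 8 • x = x := by
  have : (8 : ℕ) • x = 7 • x + x := by rw [← succ_nsmul]
  rw [this, seven, zero_add]

lemma inj2 : Function.Injective (fun x : G => 2 • x) := by
  intro x y h
  have h' : 4 • (2 • x) = 4 • (2 • y) := congrArg (fun z => 4 • z) h
  rw [← mul_smul, ← mul_smul] at h'
  norm_num at h'
  rwa [eight, eight] at h'

lemma inj4 : Function.Injective (fun x : G => 4 • x) := by
  intro x y h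
  have h' : 2 • (4 • x) = 2 • (4 • y) := congrArg (fun z => 2 • z) h
  rw [← mul_smul, ← mul_smul] at h'
  norm_num at h'
  rwa [eight, eight] at h'

/-- Bound for all invariant means. -/
theorem mean_bound (h1 : SExt) (h2 : SErg) (h3 : SStep) (h4 : STri) (A : Set G)
    (hA : ¬ HasBB A) : ∀ m : (G → ℝ) → ℝ, IsMean m →
    m (chi A) + m (chi {x | 2 • x ∈ A}) + m (chi {x | 4 • x ∈ A}) ≤ 1 := by
  intro m hm
  by_contra hcon
  push Not at hcon
  let F : G → ℝ := fun x => (chi A x + chi {x | 2 • x ∈ A} x) + chi {x | 4 • x ∈ A} x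
  have hF : ∀ m : (G → ℝ) → ℝ, IsMean m →
      m F = m (chi A) + m (chi {x | 2 • x ∈ A}) + m (chi {x | 4 • x ∈ A}) := by
    intro m hm
    have b1 : Bdd (fun x => chi A x + chi {x | 2 • x ∈ A} x) := by infer_instance
    have e1 := hm.add (fun x => chi A x + chi {x | 2 • x ∈ A} x) (chi {x | 4 • x ∈ A})
      b1 (by infer_instance)
    have e2 := hm.add (chi A) (chi {x | 2 • x ∈ A}) (by infer_instance) (by infer_instance)
    rw [← e2]
    exact e1
  obtain ⟨m', hm', hext, hle⟩ := h1 m hm F (by infer_instance)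
  rw [hF m hm, hF m' hm'] at hle
  have herg := h2 m' hm' hext
  have e8 : {x : G | 2 • x ∈ {y : G | 4 • y ∈ A}} = A := by
    ext x
    simp only [Set.mem_ofPred_eq]
    rw [← mul_smul]
    norm_num
    rw [eight]
  have e4 : {x : G | 2 • x ∈ {y : G | 2 • y ∈ A}} = {x : G | 4 • x ∈ A} := by
    ext x
    simp only [Set.mem_ofPred_eq]
    rw [← mul_smul]
    norm_num
  rcases h4 m' hm' A (lt_of_lt_of_le hcon hle) with h | h | h
  · exact hA (build A (fun C hC s => h3 m' hm' herg A C hC s) h)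
  · rw [← e4] at h
    exact hA (hasBB_of_smul 2 inj2
      (build {x | 2 • x ∈ A} (fun C hC s => h3 m' hm' herg _ C hC s) h))
  · nth_rewrite 2 [← e8] at h
    exact hA (hasBB_of_smul 4 inj4
      (build {x | 4 • x ∈ A} (fun C hC s => h3 m' hm' herg _ C hC s) h))

/-- Density bound for sets without `B + B`. -/
theorem density_bound (h1 : SExt) (h2 : SErg) (h3 : SStep) (h4 : STri) (h5 : SFol) (A : Set G)
    (hA : ¬ HasBB A) (Φ : ℕ → Finset G) (hΦ : IsFolner Φ) :
    udens Φ A ≤ 1 - 2 / 3 * dratio Φ :=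
  h5 A (mean_bound h1 h2 h3 h4 A hA) Φ hΦ

end Pool.Agent.Q199.BB
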