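import Pool.Agent.Q199.BB.Basic

/-!
# Project BB: conditional averages over the cosets of a finite index subgroup (BB10 - BB13)
-/

namespace Pool.Agent.Q199.BB

open Filter Topology

variable {m : (G → ℝ) → ℝ}

/-- The coset with class `q`. -/
def cos {H : AddSubgroup G} (q : G ⧸ H) : Set G := {x | (QuotientAddGroup.mk x : G ⧸ H) = q}

lemma chi_cos {H : AddSubgroup G} (b y : G) :
    chi (cos (QuotientAddGroup.mk b : G ⧸ H)) y = chi (H : Set G) (y - b) := by
  by_cases h : y - b ∈ (H : Set G)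
  · rw [chi_of_mem h, chi_of_mem]
    change (QuotientAddGroup.mk y : G ⧸ H) = QuotientAddGroup.mk b
    rw [eq_comm, QuotientAddGroup.eq, neg_add_eq_sub]
    exact h
  · rw [chi_of_notMem h, chi_of_notMem]
    intro h'
    apply h
    have h2 : (QuotientAddGroup.mk b : G ⧸ H) = QuotientAddGroup.mk y := h'.symm
    rw [QuotientAddGroup.eq, neg_add_eq_sub] at h2
    exact h2

lemma sum_chi_cos {H : AddSubgroup G} [Fintype (G ⧸ H)] (y : G) (F : G ⧸ H → ℝ) :
    ∑ q : G ⧸ H, F q * chi (cos q) y = F (QuotientAddGroup.mk y) := by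
  classical
  rw [Finset.sum_eq_single (QuotientAddGroup.mk y : G ⧸ H)]
  · have : chi (cos (QuotientAddGroup.mk y : G ⧸ H)) y = 1 := chi_of_mem rfl
    rw [this, mul_one]
  · intro q _ hq
    have : chi (cos q) y = 0 := chi_of_notMem (fun h' => hq h'.symm)
    rw [this, mul_zero]
  · intro h'; exact absurd (Finset.mem_univ _) h'

lemma mass_cos (hm : IsMean m) (H : AddSubgroup G) [hH : H.FiniteIndex] [Fintype (G ⧸ H)]
    (q : G ⧸ H) : (H.index : ℝ) * m (chi (cos q)) = 1 := by
  classical
  have h1 : ∀ q : G ⧸ H, m (chi (cos q)) = m (chi (H : Set G)) := by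
    intro q
    obtain ⟨b, rfl⟩ := QuotientAddGroup.mk_surjective q
    rw [← hm.shift_sub b (chi (H : Set G))]
    congr 1
    funext y
    exact chi_cos b y
  have h2 : m (fun y => ∑ q : G ⧸ H, chi (cos q) y) = 1 := by
    rw [← hm.one]
    congr 1
    funext y
    have := sum_chi_cos (H := H) y (fun _ => 1)
    simpa using this
  rw [hm.sum Finset.univ (fun q : G ⧸ H => chi (cos q)) (fun q _ => inferInstance),
    Finset.sum_congr rfl (fun q _ => h1 q), Finset.sum_const, Finset.card_univ,
    nsmul_eq_mul] at h2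
  rw [h1 q]
  have h3 : (Fintype.card (G ⧸ H) : ℝ) = H.index := by
    congr 1
    rw [← Nat.card_eq_fintype_card]
    rfl
  rw [← h3]
  exact h2

lemma mass_sum (hm : IsMean m) (H : AddSubgroup G) [hH : H.FiniteIndex] [Fintype (G ⧸ H)]
    (F : G → ℝ) (hF : ∀ k ∈ H, ∀ y, F (y + k) = F y) :
    F = fun y => ∑ q : G ⧸ H, F (Quotient.out q) * chi (cos q) y := by
  funext y
  rw [sum_chi_cos y (fun q => F (Quotient.out q))]
  have h1 : ∃ k ∈ H, Quotient.out (QuotientAddGroup.mk y : G ⧸ H) = y + k := by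
    refine ⟨-y + Quotient.out (QuotientAddGroup.mk y : G ⧸ H), ?_, by abel⟩
    rw [← QuotientAddGroup.eq]
    exact (QuotientAddGroup.out_eq' _).symm
  obtain ⟨k, hk, he⟩ := h1
  rw [he, hF k hk y]

/-- BB10. -/
theorem tCnd : SCnd := by
  classical
  intro m hm H hH f F bf bF hF
  have : Fintype (G ⧸ H) := Fintype.ofFinite _
  have hrep := mass_sum hm H F hF
  have e1 : (fun x => f x * F x) =
      fun x => ∑ q : G ⧸ H, F (Quotient.out q) * (f x * chi (cos q) x) := by
    funext x
    conv_lhs => rw [hrep]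
    simp only
    rw [Finset.mul_sum]
    refine Finset.sum_congr rfl (fun q _ => by ring)
  have hcnd : ∀ x, cnd m H f x =
      (H.index : ℝ) * m (fun z => f z * chi (cos (QuotientAddGroup.mk x : G ⧸ H)) z) := by
    intro x
    unfold cnd
    congr 2
    funext z
    rw [chi_cos]
  have e2 : (fun x => cnd m H f x * F x) =
      fun x => ∑ q : G ⧸ H, (F (Quotient.out q) *
        ((H.index : ℝ) * m (fun z => f z * chi (cos q) z))) * chi (cos q) x := by
    funext x
    rw [sum_chi_cos x (fun q => F (Quotient.out q) *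
        ((H.index : ℝ) * m (fun z => f z * chi (cos q) z))), ← hcnd x]
    have h1 : F (Quotient.out (QuotientAddGroup.mk x : G ⧸ H)) = F x := by
      have h2 := congrFun hrep x
      rw [sum_chi_cos x (fun q => F (Quotient.out q))] at h2
      exact h2.symm
    rw [h1]
    ring
  rw [e1, e2, hm.sum Finset.univ (fun (q : G ⧸ H) x => F (Quotient.out q) *
      (f x * chi (cos q) x)) (fun q _ => by infer_instance),
    hm.sum Finset.univ (fun (q : G ⧸ H) x => (F (Quotient.out q) *
        ((H.index : ℝ) * m (fun z => f z * chi (cos q) z))) * chi (cos q) x)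
        (fun q _ => by infer_instance)]
  refine Finset.sum_congr rfl (fun q _ => ?_)
  rw [hm.smul' (F (Quotient.out q)) (fun x => f x * chi (cos q) x),
    hm.smul' (F (Quotient.out q) * ((H.index : ℝ) * m (fun z => f z * chi (cos q) z)))
      (chi (cos q))]
  have := mass_cos hm H q
  calc F (Quotient.out q) * m (fun x => f x * chi (cos q) x)
      = F (Quotient.out q) * m (fun x => f x * chi (cos q) x) * 1 := by ring
    _ = F (Quotient.out q) * m (fun x => f x * chi (cos q) x) *
        ((H.index : ℝ) * m (chi (cos q))) := by rw [this]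
    _ = _ := by ring

lemma seven' (x : G) : 7 • x = 0 := by
  ext i
  simp only [Finsupp.smul_apply, Finsupp.coe_zero, Pi.zero_apply, nsmul_eq_mul]
  have : ((7 : ℕ) : ZMod 7) = 0 := by decide
  rw [this, zero_mul]

/-- BB11. -/
theorem tDbl : SDbl := by
  classical
  intro m hm H hH F bF hF
  have : Fintype (G ⧸ H) := Fintype.ofFinite _
  -- mean of a periodic function
  have hmean : ∀ F : G → ℝ, (∀ k ∈ H, ∀ y, F (y + k) = F y) →
      (H.index : ℝ) * m F = ∑ q : G ⧸ H, F (Quotient.out q) := by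
    intro F hF
    have hrep := mass_sum hm H F hF
    conv_lhs => rw [hrep]
    rw [hm.sum Finset.univ (fun (q : G ⧸ H) x => F (Quotient.out q) * chi (cos q) x)
      (fun q _ => by infer_instance), Finset.mul_sum]
    refine Finset.sum_congr rfl (fun q _ => ?_)
    rw [hm.smul' (F (Quotient.out q)) (chi (cos q))]
    have := mass_cos hm H q
    calc (H.index : ℝ) * (F (Quotient.out q) * m (chi (cos q)))
        = F (Quotient.out q) * ((H.index : ℝ) * m (chi (cos q))) := by ring
      _ = _ := by rw [this, mul_one]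
  have hF2 : ∀ k ∈ H, ∀ y, F (2 • (y + k)) = F (2 • y) := by
    intro k hk y
    rw [smul_add]
    exact hF _ (H.nsmul_mem hk 2) _
  have hval : ∀ y : G, F (Quotient.out (QuotientAddGroup.mk y : G ⧸ H)) = F y := by
    intro y
    have h2 := congrFun (mass_sum hm H F hF) y
    rw [sum_chi_cos y (fun q => F (Quotient.out q))] at h2
    exact h2.symm
  have h8 : ∀ q : G ⧸ H, 7 • q = 0 := by
    intro q
    obtain ⟨b, rfl⟩ := QuotientAddGroup.mk_surjective q
    rw [← QuotientAddGroup.mk_nsmul, seven']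
    rfl
  have hbij : Function.Bijective (fun q : G ⧸ H => 2 • q) := by
    rw [Function.bijective_iff_has_inverse]
    refine ⟨fun q => 4 • q, ?_, ?_⟩
    · intro q
      change 4 • (2 • q) = q
      rw [← mul_smul]
      have : (4 * 2 : ℕ) • q = 7 • q + q := by rw [← succ_nsmul]
      rw [this, h8, zero_add]
    · intro q
      change 2 • (4 • q) = q
      rw [← mul_smul]
      have : (2 * 4 : ℕ) • q = 7 • q + q := by rw [← succ_nsmul]
      rw [this, h8, zero_add]
  have h1 := hmean F hF
  have h2 := hmean (fun x => F (2 • x)) hF2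
  have h3 : ∑ q : G ⧸ H, F (2 • Quotient.out q) = ∑ q : G ⧸ H, F (Quotient.out q) := by
    have e1 : ∀ q : G ⧸ H, F (2 • Quotient.out q) = F (Quotient.out (2 • q : G ⧸ H)) := by
      intro q
      have : (2 • q : G ⧸ H) = QuotientAddGroup.mk (2 • Quotient.out q) := by
        rw [QuotientAddGroup.mk_nsmul, QuotientAddGroup.out_eq']
      rw [this, hval]
    rw [Finset.sum_congr rfl (fun q _ => e1 q)]
    exact Function.Bijective.sum_comp hbij (fun q => F (Quotient.out q))
  have hI : (H.index : ℝ) ≠ 0 := by exact_mod_cast hH.index_ne_zero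
  have h4 : (H.index : ℝ) * m (fun x => F (2 • x)) = (H.index : ℝ) * m F := by
    rw [h1, h2, h3]
  exact mul_left_cancel₀ hI h4

/-- Energy of a level. -/
lemma energy_diff (hCnd : SCnd) (hm : IsMean m) (H H' : AddSubgroup G) (hH : H.FiniteIndex)
    (hH' : H'.FiniteIndex) (hle : H' ≤ H) (f : G → ℝ) [bf : Bdd f] :
    m (fun x => (cnd m H' f x - cnd m H f x) ^ 2) =
      m (fun x => cnd m H' f x ^ 2) - m (fun x => cnd m H f x ^ 2) := by
  have b1 := bdd_cnd hm H f
  have b2 := bdd_cnd hm H' f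
  have h1 := hCnd m hm H' hH' f (cnd m H f) bf b1 (fun k hk y => cnd_periodic H f (hle hk) y)
  have h2 := hCnd m hm H hH f (cnd m H f) bf b1 (fun k hk y => cnd_periodic H f hk y)
  have e1 : (fun x => cnd m H f x * cnd m H f x) = fun x => cnd m H f x ^ 2 := by
    funext x; ring
  rw [e1] at h2
  have e2 : (fun x => (cnd m H' f x - cnd m H f x) ^ 2) =
      fun x => (cnd m H' f x ^ 2 - 2 * (cnd m H' f x * cnd m H f x)) + cnd m H f x ^ 2 := by
    funext x; ring
  rw [e2, hm.add' (fun x => cnd m H' f x ^ 2 - 2 * (cnd m H' f x * cnd m H f x))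
      (fun x => cnd m H f x ^ 2),
    hm.sub (fun x => cnd m H' f x ^ 2) (fun x => 2 * (cnd m H' f x * cnd m H f x)),
    hm.smul' 2 (fun x => cnd m H' f x * cnd m H f x), ← h1, h2]
  ring

lemma energy_le (hCnd : SCnd) (hm : IsMean m) (H : AddSubgroup G) (hH : H.FiniteIndex)
    (f : G → ℝ) (hf : ∀ x, |f x| ≤ 1) : m (fun x => cnd m H f x ^ 2) ≤ 1 := by
  have bf : Bdd f := bdd_of_abs_le hf
  have b1 := bdd_cnd hm H f
  have h2 := hCnd m hm H hH f (cnd m H f) bf b1 (fun k hk y => cnd_periodic H f hk y)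
  have e1 : (fun x => cnd m H f x * cnd m H f x) = fun x => cnd m H f x ^ 2 := by
    funext x; ring
  rw [e1] at h2
  have h3 := hm.cauchy f (cnd m H f)
  rw [h2] at h3
  have h4 : m (fun x => f x ^ 2) ≤ 1 := hm.le_of_le (fun x => by
    rw [← sq_abs]
    exact pow_le_one₀ (abs_nonneg _) (hf x))
  have h5 : 0 ≤ m (fun x => cnd m H f x ^ 2) := hm.nonneg _ inferInstance (fun x => sq_nonneg _)
  by_contra hcon
  push Not at hcon
  nlinarith

/-- BB12. -/
theorem tStab : SCnd → SStab := by
  intro hCnd m hm f hf δ hδ H₀ hH₀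
  have bf : Bdd f := bdd_of_abs_le hf
  let V : Set ℝ := {v | ∃ H : AddSubgroup G, H.FiniteIndex ∧ H ≤ H₀ ∧
    v = m (fun x => cnd m H f x ^ 2)}
  have hne : V.Nonempty := ⟨_, H₀, hH₀, le_rfl, rfl⟩
  have hbd : BddAbove V := ⟨1, by
    rintro v ⟨H, hH, _, rfl⟩
    exact energy_le hCnd hm H hH f hf⟩
  obtain ⟨v, ⟨H, hH, hHle, rfl⟩, hv⟩ := exists_lt_of_lt_csSup hne
    (show sSup V - δ < sSup V by linarith)
  refine ⟨H, hH, hHle, fun H' hH' hle => ?_⟩
  rw [energy_diff hCnd hm H H' hH hH' hle f]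
  have := le_csSup hbd (show m (fun x => cnd m H' f x ^ 2) ∈ V from
    ⟨H', hH', hle.trans hHle, rfl⟩)
  linarith

/-- BB13. -/
theorem tChar : SCnd → SChar := by
  intro hCnd m hm f bf δ H hH hst a
  let H' : AddSubgroup G := H ⊓ (pr a).ker
  have hker : (pr a).ker.FiniteIndex := by
    have : Finite (pr a).range := inferInstance
    exact AddSubgroup.finiteIndex_ker (pr a)
  have hH' : H'.FiniteIndex := by
    have := hH
    infer_instance
  have hle : H' ≤ H := inf_le_left
  have b1 := bdd_cnd hm H f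
  have b2 := bdd_cnd hm H' f
  let D : G → ℝ := fun x => cnd m H' f x - cnd m H f x
  have bD : Bdd D := by
    change Bdd (fun x => cnd m H' f x - cnd m H f x)
    infer_instance
  have hper : ∀ k ∈ H', ∀ y, pr a (y + k) = pr a y := by
    intro k hk y
    rw [map_add]
    have : pr a k = 0 := hk.2
    rw [this, add_zero]
  have hcs : ∀ k ∈ H', ∀ y, cs a (y + k) = cs a y := by
    intro k hk y
    unfold cs
    rw [hper k hk y]
  have hsn : ∀ k ∈ H', ∀ y, sn a (y + k) = sn a y := by
    intro k hk y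
    unfold sn
    rw [hper k hk y]
  have hred : ∀ F : G → ℝ, Bdd F → (∀ k ∈ H', ∀ y, F (y + k) = F y) →
      m (fun x => (f x - cnd m H f x) * F x) = m (fun x => D x * F x) := by
    intro F bF hF
    have h1 := hCnd m hm H' hH' f F bf bF hF
    have e1 : (fun x => (f x - cnd m H f x) * F x) =
        fun x => f x * F x - cnd m H f x * F x := by funext x; ring
    have e2 : (fun x => D x * F x) =
        fun x => cnd m H' f x * F x - cnd m H f x * F x := by
      funext x
      change (cnd m H' f x - cnd m H f x) * F x = _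
      ring
    rw [e1, e2, hm.sub (fun x => f x * F x) (fun x => cnd m H f x * F x),
      hm.sub (fun x => cnd m H' f x * F x) (fun x => cnd m H f x * F x), h1]
  rw [hred (cs a) inferInstance hcs, hred (sn a) inferInstance hsn]
  set c := m (fun x => D x * cs a x) with hc
  set s := m (fun x => D x * sn a x) with hs
  have h2 : m (fun x => D x ^ 2) ≤ δ := hst H' hH' hle
  have h3 : m (fun x => D x * (c * cs a x + s * sn a x)) = c ^ 2 + s ^ 2 := by
    have e1 : (fun x => D x * (c * cs a x + s * sn a x)) =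
        fun x => c * (D x * cs a x) + s * (D x * sn a x) := by funext x; ring
    rw [e1, hm.add' (fun x => c * (D x * cs a x)) (fun x => s * (D x * sn a x)),
      hm.smul' c (fun x => D x * cs a x), hm.smul' s (fun x => D x * sn a x), ← hc, ← hs]
    ring
  have h4 := hm.cauchy D (fun x => c * cs a x + s * sn a x)
  rw [h3] at h4
  have h5 : m (fun x => (c * cs a x + s * sn a x) ^ 2) ≤ c ^ 2 + s ^ 2 := by
    refine hm.le_of_le (fun x => ?_)
    have := cs_sq a x
    nlinarith [sq_nonneg (c * sn a x - s * cs a x)]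
  have h6 : 0 ≤ m (fun x => D x ^ 2) := hm.nonneg _ inferInstance (fun x => sq_nonneg _)
  have h7 : 0 ≤ c ^ 2 + s ^ 2 := by positivity
  have h8 : (c ^ 2 + s ^ 2) ^ 2 ≤ δ * (c ^ 2 + s ^ 2) := by
    calc (c ^ 2 + s ^ 2) ^ 2 ≤ m (fun x => D x ^ 2) *
          m (fun x => (c * cs a x + s * sn a x) ^ 2) := h4
      _ ≤ m (fun x => D x ^ 2) * (c ^ 2 + s ^ 2) := mul_le_mul_of_nonneg_left h5 h6
      _ ≤ δ * (c ^ 2 + s ^ 2) := mul_le_mul_of_nonneg_right h2 h7
  rcases h7.eq_or_lt with h9 | h9
  · rw [← h9]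
    exact h6.trans h2
  · have : (c ^ 2 + s ^ 2) * (c ^ 2 + s ^ 2) ≤ δ * (c ^ 2 + s ^ 2) := by
      rw [← sq]; exact h8
    exact le_of_mul_le_mul_right this h9

end Pool.Agent.Q199.BB
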