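import Mathlib

/-!
# Project BB: unrestricted infinite sumsets `B + B` in `F_7^ω`

Definitions: invariant means on bounded functions, ergodic means, window averages,
local Fourier coefficients, averages over cosets of finite index subgroups.
-/

namespace Pool.Agent.Q199.BB

open Filter Topology

/-- The group `F_7^ω`. -/
abbrev G : Type := ℕ →₀ ZMod 7

/-- Bounded real functions on `G` (a class, so that side conditions are found by inference). -/
class Bdd (f : G → ℝ) : Prop where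
  out : ∃ C : ℝ, ∀ x, |f x| ≤ C

instance bdd_const (c : ℝ) : Bdd (fun _ => c) := ⟨|c|, fun _ => le_rfl⟩

instance bdd_add (f g : G → ℝ) [hf : Bdd f] [hg : Bdd g] : Bdd (fun x => f x + g x) := by
  obtain ⟨C, hC⟩ := hf.out
  obtain ⟨D, hD⟩ := hg.out
  exact ⟨C + D, fun x => (abs_add_le _ _).trans (add_le_add (hC x) (hD x))⟩

instance bdd_neg (f : G → ℝ) [hf : Bdd f] : Bdd (fun x => -f x) := by
  obtain ⟨C, hC⟩ := hf.out
  exact ⟨C, fun x => by rw [abs_neg]; exact hC x⟩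

instance bdd_sub (f g : G → ℝ) [hf : Bdd f] [hg : Bdd g] : Bdd (fun x => f x - g x) := by
  obtain ⟨C, hC⟩ := hf.out
  obtain ⟨D, hD⟩ := hg.out
  exact ⟨C + D, fun x => (abs_sub _ _).trans (add_le_add (hC x) (hD x))⟩

instance bdd_mul (f g : G → ℝ) [hf : Bdd f] [hg : Bdd g] : Bdd (fun x => f x * g x) := by
  obtain ⟨C, hC⟩ := hf.out
  obtain ⟨D, hD⟩ := hg.out
  refine ⟨C * D, fun x => ?_⟩
  rw [abs_mul]
  exact mul_le_mul (hC x) (hD x) (abs_nonneg _) ((abs_nonneg _).trans (hC x))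

instance bdd_pow (f : G → ℝ) (n : ℕ) [hf : Bdd f] : Bdd (fun x => f x ^ n) := by
  obtain ⟨C, hC⟩ := hf.out
  refine ⟨C ^ n, fun x => ?_⟩
  rw [abs_pow]
  exact pow_le_pow_left₀ (abs_nonneg _) (hC x) n

instance bdd_abs (f : G → ℝ) [hf : Bdd f] : Bdd (fun x => |f x|) := by
  obtain ⟨C, hC⟩ := hf.out
  exact ⟨C, fun x => by rw [abs_abs]; exact hC x⟩

lemma bdd_comp (f : G → ℝ) (φ : G → G) [hf : Bdd f] : Bdd (fun x => f (φ x)) := by
  obtain ⟨C, hC⟩ := hf.out
  exact ⟨C, fun x => hC _⟩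

instance bdd_shift (f : G → ℝ) (h : G) [Bdd f] : Bdd (fun x => f (x + h)) := bdd_comp f _
instance bdd_shift' (f : G → ℝ) (h : G) [Bdd f] : Bdd (fun x => f (h + x)) := bdd_comp f _
instance bdd_shiftsub (f : G → ℝ) (h : G) [Bdd f] : Bdd (fun x => f (x - h)) := bdd_comp f _
instance bdd_subshift (f : G → ℝ) (h : G) [Bdd f] : Bdd (fun x => f (h - x)) := bdd_comp f _
instance bdd_nsmul (f : G → ℝ) (n : ℕ) [Bdd f] : Bdd (fun x => f (n • x)) := bdd_comp f _

lemma bdd_sum {ι : Type*} (s : Finset ι) (f : ι → G → ℝ) (h : ∀ i ∈ s, Bdd (f i)) :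
    Bdd (fun x => ∑ i ∈ s, f i x) := by
  classical
  induction s using Finset.induction_on with
  | empty => simpa using bdd_const 0
  | insert a s ha ih =>
    have h1 : Bdd (f a) := h a (Finset.mem_insert_self _ _)
    have h2 : Bdd (fun x => ∑ i ∈ s, f i x) := ih (fun i hi => h i (Finset.mem_insert_of_mem hi))
    have : (fun x => ∑ i ∈ insert a s, f i x) = fun x => f a x + ∑ i ∈ s, f i x := by
      funext x; rw [Finset.sum_insert ha]
    rw [this]
    exact bdd_add _ _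

/-- Positive linear shift invariant functional on the bounded functions. -/
structure IsPos (m : (G → ℝ) → ℝ) : Prop where
  add : ∀ f g : G → ℝ, Bdd f → Bdd g → m (fun x => f x + g x) = m f + m g
  smul : ∀ (c : ℝ) (f : G → ℝ), Bdd f → m (fun x => c * f x) = c * m f
  nonneg : ∀ f : G → ℝ, Bdd f → (∀ x, 0 ≤ f x) → 0 ≤ m f
  shift : ∀ (h : G) (f : G → ℝ), Bdd f → m (fun x => f (x + h)) = m f

/-- Invariant mean. -/
structure IsMean (m : (G → ℝ) → ℝ) : Prop extends IsPos m where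
  one : m (fun _ => 1) = 1

/-- Extreme mean: every positive shift invariant functional below `m` is a multiple of `m`. -/
def Ext (m : (G → ℝ) → ℝ) : Prop :=
  ∀ m1 : (G → ℝ) → ℝ, IsPos m1 → (∀ f : G → ℝ, Bdd f → (∀ x, 0 ≤ f x) → m1 f ≤ m f) →
    ∀ f : G → ℝ, Bdd f → m1 f = m1 (fun _ => 1) * m f

/-- The window `F_7^n` inside `G`. -/
noncomputable def emb (n : ℕ) (w : Fin n → ZMod 7) : G := ∑ i : Fin n, Finsupp.single (i : ℕ) (w i)

/-- Average over the window `y + F_7^n`. -/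
noncomputable def avg (n : ℕ) (f : G → ℝ) (y : G) : ℝ :=
  ((7 : ℝ) ^ n)⁻¹ * ∑ w : Fin n → ZMod 7, f (y + emb n w)

/-- Ergodic mean: the window averages of every bounded `f` converge to `m f` in `L²(m)`. -/
def Erg (m : (G → ℝ) → ℝ) : Prop :=
  ∀ f : G → ℝ, Bdd f → Tendsto (fun n => m (fun y => (avg n f y - m f) ^ 2)) atTop (𝓝 0)

/-- The pairing of `a ∈ F_7^ℕ` with `y ∈ G`. -/
noncomputable def pr (a : ℕ → ZMod 7) : G →+ ZMod 7 :=
  Finsupp.liftAddHom (fun i => AddMonoidHom.mulLeft (a i))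

/-- Real part of the character of `G` given by `a`. -/
noncomputable def cs (a : ℕ → ZMod 7) (y : G) : ℝ := (ZMod.stdAddChar (pr a y) : ℂ).re
/-- Imaginary part of the character of `G` given by `a`. -/
noncomputable def sn (a : ℕ → ZMod 7) (y : G) : ℝ := (ZMod.stdAddChar (pr a y) : ℂ).im

/-- Square of the modulus of the local Fourier coefficient of `f` on the window `y + F_7^n`. -/
noncomputable def loc (n : ℕ) (a : ℕ → ZMod 7) (f : G → ℝ) (y : G) : ℝ :=
  (avg n (fun x => f x * cs a x) y) ^ 2 + (avg n (fun x => f x * sn a x) y) ^ 2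

/-- Extension by zero. -/
def ex {n : ℕ} (a : Fin n → ZMod 7) (i : ℕ) : ZMod 7 := if h : i < n then a ⟨i, h⟩ else 0

open Classical in
/-- Indicator function of a set. -/
noncomputable def chi (A : Set G) (x : G) : ℝ := if x ∈ A then 1 else 0

/-- Conditional average of `f` on the coset `y + H`. -/
noncomputable def cnd (m : (G → ℝ) → ℝ) (H : AddSubgroup G) (f : G → ℝ) (y : G) : ℝ :=
  (H.index : ℝ) * m (fun x => f x * chi (H : Set G) (x - y))

/-- `A` has positive mass at `2y` for `y` in a part of `C` of positive mass, at all levels. -/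
def Pos (m : (G → ℝ) → ℝ) (A C : Set G) : Prop :=
  ∃ ε > 0, ∃ H₀ : AddSubgroup G, H₀.FiniteIndex ∧ ∀ H : AddSubgroup G, H.FiniteIndex → H ≤ H₀ →
    ε ≤ m (fun y => chi C y * cnd m H (chi A) (2 • y))

instance bdd_chi (A : Set G) : Bdd (chi A) := ⟨1, fun x => by
  unfold chi; split_ifs <;> simp⟩

lemma cs_le (a : ℕ → ZMod 7) (y : G) : |cs a y| ≤ 1 := by
  unfold cs
  refine (Complex.abs_re_le_norm _).trans ?_
  rw [AddChar.norm_apply]

lemma sn_le (a : ℕ → ZMod 7) (y : G) : |sn a y| ≤ 1 := by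
  unfold sn
  refine (Complex.abs_im_le_norm _).trans ?_
  rw [AddChar.norm_apply]

lemma cs_sq (a : ℕ → ZMod 7) (y : G) : cs a y ^ 2 + sn a y ^ 2 = 1 := by
  unfold cs sn
  have h : ‖(ZMod.stdAddChar (pr a y) : ℂ)‖ = 1 := AddChar.norm_apply _ _
  have h2 := Complex.sq_norm (ZMod.stdAddChar (pr a y) : ℂ)
  rw [h, Complex.normSq_apply] at h2
  linarith [h2, sq ((ZMod.stdAddChar (pr a y) : ℂ).re), sq ((ZMod.stdAddChar (pr a y) : ℂ).im)]

instance bdd_cs (a : ℕ → ZMod 7) : Bdd (cs a) := ⟨1, cs_le a⟩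
instance bdd_sn (a : ℕ → ZMod 7) : Bdd (sn a) := ⟨1, sn_le a⟩

instance bdd_avg (n : ℕ) (f : G → ℝ) [Bdd f] : Bdd (avg n f) := by
  have h := bdd_sum (Finset.univ : Finset (Fin n → ZMod 7)) (fun w y => f (y + emb n w))
    (fun i _ => bdd_shift f _)
  exact bdd_mul (fun _ => ((7 : ℝ) ^ n)⁻¹) _

instance bdd_loc (n : ℕ) (a : ℕ → ZMod 7) (f : G → ℝ) [Bdd f] : Bdd (loc n a f) := by
  unfold loc
  infer_instance

end Pool.Agent.Q199.BB
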