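import Pool.Agent.Q199.BB.Build

/-!
# Project BB: facts on the group `F_7^ω` and its windows
-/

namespace Pool.Agent.Q199.BB

open Filter Topology

lemma inf_G : Infinite G := by
  have h10 : (1 : ZMod 7) ≠ 0 := by decide
  exact Infinite.of_injective (fun i : ℕ => (Finsupp.single i (1 : ZMod 7) : G))
    (Finsupp.single_left_injective h10)

lemma surj2 : Function.Surjective (fun x : G => 2 • x) := by
  intro x
  refine ⟨4 • x, ?_⟩
  change 2 • (4 • x) = x
  rw [← mul_smul]
  norm_num
  exact eight x

open Classical in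
/-- The windows `F_7^N` as finite sets. -/
noncomputable def win (N : ℕ) : Finset G :=
  (Finset.univ : Finset (Fin N → ZMod 7)).image (emb N)

lemma mem_win_of_support {N : ℕ} {x : G} (h : ∀ i, N ≤ i → x i = 0) : x ∈ win N := by
  classical
  unfold win
  rw [Finset.mem_image]
  refine ⟨fun i => x i, Finset.mem_univ _, ?_⟩
  unfold emb
  ext j
  rw [Finsupp.finsetSum_apply]
  by_cases hj : j < N
  · rw [Finset.sum_eq_single (⟨j, hj⟩ : Fin N)]
    · simp
    · intro i _ hi
      rw [Finsupp.single_apply, if_neg]
      intro h'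
      apply hi
      ext
      exact h'
    · intro h'; exact absurd (Finset.mem_univ _) h'
  · rw [Finset.sum_eq_zero, h j (by omega)]
    intro i _
    rw [Finsupp.single_apply, if_neg]
    intro h'
    have := i.2
    omega

lemma support_of_mem_win {N : ℕ} {x : G} (h : x ∈ win N) : ∀ i, N ≤ i → x i = 0 := by
  classical
  intro i hi
  unfold win at h
  rw [Finset.mem_image] at h
  obtain ⟨w, _, rfl⟩ := h
  unfold emb
  rw [Finsupp.finsetSum_apply, Finset.sum_eq_zero]
  intro j _
  rw [Finsupp.single_apply, if_neg]
  intro h'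
  have := j.2
  omega

lemma win_nonempty (N : ℕ) : (win N).Nonempty := ⟨0, mem_win_of_support (fun _ _ => rfl)⟩

lemma folner_win : IsFolner win := by
  intro g
  refine tendsto_const_nhds.congr' (Filter.eventually_atTop.mpr
    ⟨g.support.sup id + 1, fun N hN => ?_⟩)
  have hg : ∀ i, N ≤ i → g i = 0 := by
    intro i hi
    by_contra hne
    have h2 : i ∈ g.support := Finsupp.mem_support_iff.mpr hne
    have h3 : i ≤ g.support.sup id := Finset.le_sup (f := id) h2
    omega
  have hw : ∀ x ∈ win N, x - g ∈ win N := fun x hx => mem_win_of_support (fun i hi => by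
    rw [Finsupp.sub_apply, support_of_mem_win hx i hi, hg i hi, sub_zero])
  beta_reduce
  have h3 : ((win N).card : ℝ) ≠ 0 := by
    have := (win_nonempty N).card_pos
    positivity
  have hc : ∀ inst : DecidablePred (fun x => x - g ∈ win N),
      @Finset.filter G (fun x => x - g ∈ win N) inst (win N) = win N := by
    intro inst
    ext x
    rw [Finset.mem_filter]
    exact ⟨fun h => h.1, fun h => ⟨h, hw x h⟩⟩
  rw [hc]
  exact (div_self h3).symm

lemma dratio_win : dratio win = 1 := by
  unfold dratio
  have h2 : ∀ f : ℕ → ℝ, (∀ N, f N = 1) → liminf f atTop = 1 := by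
    intro f hf
    have : f = fun _ => 1 := funext hf
    rw [this]
    exact liminf_const 1
  refine h2 _ (fun N => ?_)
  have hw : ∀ x ∈ win N, 2 • x ∈ win N := fun x hx => mem_win_of_support (fun i hi => by
    rw [Finsupp.smul_apply, support_of_mem_win hx i hi, smul_zero])
  have h3 : ((win N).card : ℝ) ≠ 0 := by
    have := (win_nonempty N).card_pos
    positivity
  have hc : ∀ inst : DecidablePred (fun x => 2 • x ∈ win N),
      @Finset.filter G (fun x => 2 • x ∈ win N) inst (win N) = win N := by
    intro inst
    ext x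
    rw [Finset.mem_filter]
    exact ⟨fun h => h.1, fun h => ⟨h, hw x h⟩⟩
  rw [hc]
  exact div_self h3

/-- `[G : 2G] = 1`. -/
lemma index_two : (nsmulAddMonoidHom 2 : G →+ G).range.index = 1 := by
  rw [AddSubgroup.index_eq_one, AddMonoidHom.range_eq_top]
  exact surj2

/-- `|ker D| = 1`. -/
lemma card_ker_two : Nat.card (nsmulAddMonoidHom 2 : G →+ G).ker = 1 := by
  have : (nsmulAddMonoidHom 2 : G →+ G).ker = ⊥ := by
    rw [AddMonoidHom.ker_eq_bot_iff]
    exact inj2
  rw [this]
  simp

/-- Sets without `B + B` and of the critical density do not exist. -/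
theorem critical {A : Set G} {Φ : ℕ → Finset G}
    (h : ¬ HasBB A → udens Φ A ≤ 1 - 2 / 3 * dratio Φ) (hα : 0 < dratio Φ)
    (hA : udens Φ A = 1 - dratio Φ / (1 + 1)) : HasBB A := by
  by_contra hcon
  have := h hcon
  rw [hA] at this
  linarith

end Pool.Agent.Q199.BB
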