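import Pool.Agent.Q199.BB.Final

/-!
# Project BB: a set of density `1/3` along the windows without `B + B`
-/

namespace Pool.Agent.Q199.BB

open Filter Topology

/-- The largest element of the support (`0` for `x = 0`). -/
def top (x : G) : ℕ := x.support.sup id

/-- The last nonzero coordinate (`0` for `x = 0`). -/
def last (x : G) : ZMod 7 := x (top x)

/-- The set of the elements with last nonzero coordinate `1` or `3`. -/
def lastSet : Set G := {x | last x = 1 ∨ last x = 3}

lemma zero_of_top_lt {x : G} {i : ℕ} (h : top x < i) : x i = 0 := by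
  by_contra hne
  have h2 : i ∈ x.support := Finsupp.mem_support_iff.mpr hne
  have h3 : i ≤ top x := Finset.le_sup (f := id) h2
  omega

lemma last_ne_zero {x : G} (hx : x ≠ 0) : last x ≠ 0 := by
  have hne : x.support.Nonempty := Finsupp.support_nonempty_iff.mpr hx
  obtain ⟨i, hi, he⟩ := Finset.exists_mem_eq_sup x.support hne id
  unfold last top
  rw [he]
  exact Finsupp.mem_support_iff.mp hi

lemma top_eq {x : G} {i : ℕ} (h1 : x i ≠ 0) (h2 : ∀ j, i < j → x j = 0) : top x = i := by
  apply le_antisymm
  · refine Finset.sup_le (fun j hj => ?_)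
    by_contra hcon
    exact (Finsupp.mem_support_iff.mp hj) (h2 j (by simpa using hcon))
  · exact Finset.le_sup (f := id) (Finsupp.mem_support_iff.mpr h1)

lemma zero_of_top_lt' {x : G} (hx : x ≠ 0) : x (top x) ≠ 0 := last_ne_zero hx

lemma last_add {x y : G} (h : top x < top y) (hy : y ≠ 0) : last (x + y) = last y := by
  have h1 : (x + y) (top y) = y (top y) := by
    rw [Finsupp.add_apply, zero_of_top_lt h, zero_add]
  have h2 : top (x + y) = top y := by
    refine top_eq ?_ ?_
    · rw [h1]; exact zero_of_top_lt' hy
    · intro j hj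
      rw [Finsupp.add_apply, zero_of_top_lt hj, zero_of_top_lt (h.trans hj), zero_add]
  unfold last
  rw [h2, h1]

lemma last_smul {c : ZMod 7} (hc : c ≠ 0) (x : G) : last (c • x) = c * last x := by
  have hfact : Fact (Nat.Prime 7) := ⟨by norm_num⟩
  by_cases hx : x = 0
  · subst hx
    rw [smul_zero]
    unfold last
    simp
  · have h2 : top (c • x) = top x := by
      refine top_eq ?_ ?_
      · rw [Finsupp.smul_apply, smul_eq_mul]
        exact mul_ne_zero hc (zero_of_top_lt' hx)
      · intro j hj
        rw [Finsupp.smul_apply, zero_of_top_lt hj, smul_zero]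
    unfold last
    rw [h2, Finsupp.smul_apply, smul_eq_mul]

lemma mem_win_iff {N : ℕ} {x : G} : x ∈ win N ↔ ∀ i, N ≤ i → x i = 0 :=
  ⟨support_of_mem_win, mem_win_of_support⟩

/-- The set contains no `B + B` with `B` infinite. -/
lemma lastSet_noBB : ¬ HasBB lastSet := by
  rintro ⟨B, hB, h⟩
  -- a nonzero element
  obtain ⟨b, hb⟩ := hB.nonempty
  have hfin : (win (top b + 1) : Set G).Finite := Finset.finite_toSet _
  obtain ⟨b', hb', hnot⟩ := hB.exists_notMem_finset (win (top b + 1))
  rw [mem_win_iff] at hnot
  push Not at hnot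
  obtain ⟨i, hi, hbi⟩ := hnot
  have htop : top b < top b' := by
    have h1 : i ≤ top b' := Finset.le_sup (f := id) (Finsupp.mem_support_iff.mpr hbi)
    omega
  have hne : b' ≠ 0 := by
    rintro rfl
    exact hbi rfl
  have h1 := h b hb b' hb'
  have h2 := h b' hb' b' hb'
  change last (b + b') = 1 ∨ last (b + b') = 3 at h1
  rw [last_add htop hne] at h1
  change last (b' + b') = 1 ∨ last (b' + b') = 3 at h2
  have h3 : b' + b' = (2 : ZMod 7) • b' := by rw [two_smul]
  rw [h3, last_smul (by decide)] at h2
  rcases h1 with h1 | h1 <;> rw [h1] at h2 <;> revert h2 <;> decide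

open Classical in
/-- Count in the windows. -/
lemma count_last (N : ℕ) :
    3 * ((win N).filter (fun x => x ∈ lastSet)).card + 1 = (win N).card := by
  -- the six classes
  let S : ZMod 7 → Finset G := fun c => (win N).filter (fun x => last x = c)
  have hcard : ∀ c : ZMod 7, c ≠ 0 → (S c).card = (S 1).card := by
    intro c hc
    have hfact : Fact (Nat.Prime 7) := ⟨by norm_num⟩
    symm
    refine Finset.card_bij (fun x _ => c • x) ?_ ?_ ?_
    · intro x hx
      rw [Finset.mem_filter] at hx ⊢
      refine ⟨?_, ?_⟩
      · rw [mem_win_iff] at hx ⊢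
        intro i hi
        rw [Finsupp.smul_apply, hx.1 i hi, smul_zero]
      · rw [last_smul hc, hx.2, mul_one]
    · intro x _ y _ hxy
      have : c⁻¹ • (c • x) = c⁻¹ • (c • y) := congrArg _ hxy
      rwa [smul_smul, smul_smul, inv_mul_cancel₀ hc, one_smul, one_smul] at this
    · intro y hy
      rw [Finset.mem_filter] at hy
      refine ⟨c⁻¹ • y, ?_, ?_⟩
      · rw [Finset.mem_filter]
        refine ⟨?_, ?_⟩
        · rw [mem_win_iff] at hy ⊢
          intro i hi
          rw [Finsupp.smul_apply, hy.1 i hi, smul_zero]
        · rw [last_smul (inv_ne_zero hc), hy.2, inv_mul_cancel₀ hc]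
      · rw [smul_smul, mul_inv_cancel₀ hc, one_smul]
  have hS0 : (S 0).card = 1 := by
    rw [Finset.card_eq_one]
    refine ⟨0, ?_⟩
    ext x
    rw [Finset.mem_filter, Finset.mem_singleton]
    constructor
    · rintro ⟨_, hx⟩
      by_contra hne
      exact last_ne_zero hne hx
    · rintro rfl
      refine ⟨mem_win_of_support (fun _ _ => rfl), ?_⟩
      unfold last
      simp
  have htot : (win N).card = ∑ c : ZMod 7, (S c).card :=
    Finset.card_eq_sum_card_fiberwise (f := last) (t := Finset.univ) (fun x _ => by simp)
  have hlast : ((win N).filter (fun x => x ∈ lastSet)).card = (S 1).card + (S 3).card := by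
    have h1 : (win N).filter (fun x => x ∈ lastSet) = S 1 ∪ S 3 := by
      ext x
      rw [Finset.mem_filter, Finset.mem_union, Finset.mem_filter, Finset.mem_filter]
      change (x ∈ win N ∧ (last x = 1 ∨ last x = 3)) ↔ _
      tauto
    rw [h1, Finset.card_union_of_disjoint]
    rw [Finset.disjoint_left]
    intro x hx hx'
    rw [Finset.mem_filter] at hx hx'
    have h3 := hx.2.symm.trans hx'.2
    exact absurd h3 (by decide)
  have h3 := hcard 3 (by decide)
  have hsum : ∑ c : ZMod 7, (S c).card = 1 + 6 * (S 1).card := by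
    have h7 : ∑ c : ZMod 7, (S c).card = ∑ c : ZMod 7, (if c = 0 then 1 else (S 1).card) := by
      refine Finset.sum_congr rfl (fun c _ => ?_)
      by_cases hc : c = 0
      · rw [if_pos hc, hc, hS0]
      · rw [if_neg hc, hcard c hc]
    rw [h7]
    change ∑ c : Fin 7, (if c = 0 then 1 else (S 1).card) = _
    rw [Fin.sum_univ_succ]
    simp [Fin.succ_ne_zero]
  rw [hlast, htot, hsum, h3]
  ring

open Classical in
/-- Its upper density along the windows is at least `1/3`. -/
lemma udens_last : 1 / 3 ≤ udens win lastSet := by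
  have hcard : ∀ N, ((7 : ℝ) ^ N) ≤ ((win N).card : ℝ) := by
    intro N
    have hinj : Function.Injective (emb N) := by
      intro v w h
      funext i
      have h1 := DFunLike.congr_fun h (i : ℕ)
      unfold emb at h1
      rw [Finsupp.finsetSum_apply, Finsupp.finsetSum_apply,
        Finset.sum_eq_single i, Finset.sum_eq_single i] at h1
      · simpa using h1
      · intro j _ hj
        rw [Finsupp.single_apply, if_neg]
        intro h'
        exact hj (Fin.ext h')
      · intro h'; exact absurd (Finset.mem_univ _) h'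
      · intro j _ hj
        rw [Finsupp.single_apply, if_neg]
        intro h'
        exact hj (Fin.ext h')
      · intro h'; exact absurd (Finset.mem_univ _) h'
    have h2 : (win N).card = Fintype.card (Fin N → ZMod 7) := by
      unfold win
      rw [Finset.card_image_of_injective _ hinj, Finset.card_univ]
    rw [h2]
    have hc : Fintype.card (Fin N → ZMod 7) = 7 ^ N := by simp
    rw [hc]
    push_cast
    exact le_rfl
  unfold udens
  have hval : ∀ N, (((win N).filter (fun x => x ∈ lastSet)).card : ℝ) / (win N).card =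
      1 / 3 - (1 / 3) * ((win N).card : ℝ)⁻¹ := by
    intro N
    have h1 := count_last N
    have h2 : (3 : ℝ) * (((win N).filter (fun x => x ∈ lastSet)).card : ℝ) + 1 =
        ((win N).card : ℝ) := by exact_mod_cast h1
    have h3 : ((win N).card : ℝ) ≠ 0 := by
      have := (win_nonempty N).card_pos
      positivity
    field_simp
    linarith
  have hlim : Tendsto (fun N => (1 : ℝ) / 3 - (1 / 3) * ((win N).card : ℝ)⁻¹) atTop
      (𝓝 (1 / 3)) := by
    have h1 : Tendsto (fun N => ((win N).card : ℝ)) atTop atTop :=
      tendsto_atTop_mono hcard (tendsto_pow_atTop_atTop_of_one_lt (by norm_num))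
    have h2 := (h1.inv_tendsto_atTop.const_mul (1 / 3 : ℝ)).const_sub (1 / 3 : ℝ)
    simpa using h2
  have hfun : (fun N => (((win N).filter (fun x => x ∈ lastSet)).card : ℝ) / (win N).card) =
      fun N => (1 : ℝ) / 3 - (1 / 3) * ((win N).card : ℝ)⁻¹ := funext hval
  refine le_of_eq ?_
  symm
  have : ∀ f : ℕ → ℝ, f = (fun N => (1 : ℝ) / 3 - (1 / 3) * ((win N).card : ℝ)⁻¹) →
      limsup f atTop = 1 / 3 := by
    intro f hf
    rw [hf]
    exact hlim.limsup_eq
  exact this _ hfun

end Pool.Agent.Q199.BB
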