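import Pool.Agent.Q199.BB.Basic

/-!
# Project BB: window inequality, monotonicity, limits, uniform smallness (BB5, BB6, BB8, BB9)
-/

namespace Pool.Agent.Q199.BB

open Filter Topology

variable {m : (G → ℝ) → ℝ}

lemma card_win (n : ℕ) : (Fintype.card (Fin n → ZMod 7) : ℝ) = 7 ^ n := by
  have hc : Fintype.card (Fin n → ZMod 7) = 7 ^ n := by simp
  rw [hc]
  norm_num

/-- BB5. -/
theorem tWin : SPars → SConv → SWin := by
  classical
  intro hPars hConv m hm f g h hf hg bh n N hN hloc
  have bf : Bdd f := bdd_of_abs_le hf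
  have bg : Bdd g := bdd_of_abs_le hg
  have bψ : Bdd (fun b => m (fun y => g y * h (y + b))) := bdd_inner2 hm g h
  rw [← hm.avg_eq n (fun b => f b * m (fun y => g y * h (y + b)))]
  refine hm.abs_le (fun b => ?_)
  -- the inner function
  let K : G → ℝ := fun z => ((7 : ℝ) ^ n)⁻¹ * ∑ w : Fin n → ZMod 7, f (b + emb n w) * h (z + emb n w)
  have bsum : Bdd (fun z => ∑ w : Fin n → ZMod 7, f (b + emb n w) * h (z + emb n w)) :=
    bdd_sum Finset.univ (fun (w : Fin n → ZMod 7) z => f (b + emb n w) * h (z + emb n w))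
      (fun i _ => by infer_instance)
  have bK : Bdd K := bdd_mul (fun _ => ((7 : ℝ) ^ n)⁻¹) _
  have e1 : avg n (fun b => f b * m (fun y => g y * h (y + b))) b =
      m (fun y => g y * K (y + b)) := by
    unfold avg
    have h1 : (fun y => g y * K (y + b)) = fun y => ((7 : ℝ) ^ n)⁻¹ *
        ∑ w : Fin n → ZMod 7, f (b + emb n w) * (g y * h (y + (b + emb n w))) := by
      funext y
      change g y * (((7 : ℝ) ^ n)⁻¹ * ∑ w : Fin n → ZMod 7, f (b + emb n w) *
        h (y + b + emb n w)) = _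
      rw [Finset.mul_sum, Finset.mul_sum, Finset.mul_sum]
      refine Finset.sum_congr rfl (fun w _ => ?_)
      rw [← add_assoc]
      ring
    have bs2 : Bdd (fun y => ∑ w : Fin n → ZMod 7, f (b + emb n w) *
        (g y * h (y + (b + emb n w)))) :=
      bdd_sum Finset.univ (fun (w : Fin n → ZMod 7) y => f (b + emb n w) *
        (g y * h (y + (b + emb n w)))) (fun i _ => by infer_instance)
    rw [h1, hm.smul' (((7 : ℝ) ^ n)⁻¹) (fun y => ∑ w : Fin n → ZMod 7, f (b + emb n w) *
        (g y * h (y + (b + emb n w)))),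
      hm.sum Finset.univ (fun (w : Fin n → ZMod 7) y => f (b + emb n w) *
        (g y * h (y + (b + emb n w)))) (fun i _ => by infer_instance)]
    congr 1
    refine Finset.sum_congr rfl (fun w _ => ?_)
    rw [hm.smul' (f (b + emb n w)) (fun y => g y * h (y + (b + emb n w)))]
  rw [e1]
  have h2 := hm.cauchy g (fun y => K (y + b))
  have h3 : m (fun x => g x ^ 2) ≤ 1 := hm.le_of_le (fun x => by
    rw [← sq_abs]
    exact pow_le_one₀ (abs_nonneg _) (hg x))
  have h4 : m (fun y => K (y + b) ^ 2) = m (fun y => K y ^ 2) :=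
    hm.shift b (fun y => K y ^ 2) inferInstance
  have h5 : m (fun y => K y ^ 2) = m (avg n (fun y => K y ^ 2)) :=
    (hm.avg_eq n (fun y => K y ^ 2)).symm
  have h6 : avg n (fun y => K y ^ 2) =
      fun y => ∑ a : Fin n → ZMod 7, loc n (ex a) f b * loc n (ex a) h y := by
    funext y
    rw [← hConv n f h b y]
    unfold avg
    congr 1
    refine Finset.sum_congr rfl (fun v _ => ?_)
    change (((7 : ℝ) ^ n)⁻¹ * ∑ w : Fin n → ZMod 7, f (b + emb n w) *
        h (y + emb n v + emb n w)) ^ 2 = _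
    congr 2
    refine Finset.sum_congr rfl (fun w _ => ?_)
    rw [emb_add, ← add_assoc]
  have h7 : m (fun y => K y ^ 2) =
      ∑ a : Fin n → ZMod 7, loc n (ex a) f b * m (loc n (ex a) h) := by
    rw [h5, h6, hm.sum Finset.univ (fun (a : Fin n → ZMod 7) y => loc n (ex a) f b *
      loc n (ex a) h y) (fun i _ => by infer_instance)]
    refine Finset.sum_congr rfl (fun a _ => ?_)
    rw [hm.smul' (loc n (ex a) f b) (loc n (ex a) h)]
  have hlocnn : ∀ (a : ℕ → ZMod 7) (y : G), 0 ≤ loc n a f y := by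
    intro a y
    unfold loc
    positivity
  have h8 : m (fun y => K y ^ 2) ≤ N ^ 2 := by
    rw [h7]
    calc ∑ a : Fin n → ZMod 7, loc n (ex a) f b * m (loc n (ex a) h)
        ≤ ∑ a : Fin n → ZMod 7, loc n (ex a) f b * N ^ 2 :=
          Finset.sum_le_sum (fun a _ => mul_le_mul_of_nonneg_left (hloc a) (hlocnn _ _))
      _ = avg n (fun x => f x ^ 2) b * N ^ 2 := by rw [← Finset.sum_mul, hPars n f b]
      _ ≤ 1 * N ^ 2 := by
          refine mul_le_mul_of_nonneg_right ?_ (sq_nonneg _)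
          unfold avg
          have h9 : ∑ w : Fin n → ZMod 7, f (b + emb n w) ^ 2 ≤
              ∑ _w : Fin n → ZMod 7, (1 : ℝ) := Finset.sum_le_sum (fun w _ => by
            rw [← sq_abs]
            exact pow_le_one₀ (abs_nonneg _) (hf _))
          rw [Finset.sum_const, Finset.card_univ, nsmul_eq_mul, card_win, mul_one] at h9
          have hp : (0 : ℝ) < 7 ^ n := by positivity
          calc ((7 : ℝ) ^ n)⁻¹ * ∑ w : Fin n → ZMod 7, f (b + emb n w) ^ 2
              ≤ ((7 : ℝ) ^ n)⁻¹ * 7 ^ n := mul_le_mul_of_nonneg_left h9 (by positivity)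
            _ = 1 := inv_mul_cancel₀ hp.ne'
      _ = N ^ 2 := one_mul _
  have h9 : 0 ≤ m (fun y => K y ^ 2) := hm.nonneg _ inferInstance (fun x => sq_nonneg _)
  have h10 : |m (fun y => g y * K (y + b))| ^ 2 ≤ N ^ 2 := by
    rw [sq_abs]
    refine h2.trans ?_
    rw [h4]
    calc m (fun x => g x ^ 2) * m (fun y => K y ^ 2) ≤ 1 * m (fun y => K y ^ 2) :=
          mul_le_mul_of_nonneg_right h3 h9
      _ ≤ N ^ 2 := by rw [one_mul]; exact h8
  exact (sq_le_sq₀ (abs_nonneg _) hN).mp h10

lemma emb_ext {k n : ℕ} (hkn : k ≤ n) (w : Fin k → ZMod 7) :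
    emb k w = emb n (fun i => if h : (i : ℕ) < k then w ⟨i, h⟩ else 0) := by
  unfold emb
  ext j
  rw [Finsupp.finsetSum_apply, Finsupp.finsetSum_apply]
  by_cases hj : j < k
  · rw [Finset.sum_eq_single (⟨j, hj⟩ : Fin k), Finset.sum_eq_single (⟨j, by omega⟩ : Fin n)]
    · simp [hj]
    · intro i _ hi
      rw [Finsupp.single_apply, if_neg]
      intro h'
      apply hi
      ext
      exact h'
    · intro h'; exact absurd (Finset.mem_univ _) h'
    · intro i _ hi
      rw [Finsupp.single_apply, if_neg]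
      intro h'
      apply hi
      ext
      exact h'
    · intro h'; exact absurd (Finset.mem_univ _) h'
  · rw [Finset.sum_eq_zero, Finset.sum_eq_zero]
    · intro i _
      rw [Finsupp.single_apply]
      by_cases h1 : (i : ℕ) = j
      · have h2 : ¬ ((i : ℕ) < k) := by rw [h1]; exact hj
        rw [if_pos h1]
        exact dif_neg h2
      · rw [if_neg h1]
    · intro i _
      rw [Finsupp.single_apply, if_neg]
      intro h'
      have := i.2
      omega

lemma avg_avg {k n : ℕ} (hkn : k ≤ n) (F : G → ℝ) (y : G) :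
    avg n (avg k F) y = avg n F y := by
  unfold avg
  congr 1
  have h1 : ∀ u : Fin n → ZMod 7, ((7 : ℝ) ^ k)⁻¹ * ∑ w : Fin k → ZMod 7,
      F (y + emb n u + emb k w) = ((7 : ℝ) ^ k)⁻¹ * ∑ w : Fin k → ZMod 7,
      F (y + emb n (u + fun i : Fin n => if h : (i : ℕ) < k then w ⟨i, h⟩ else 0)) := by
    intro u
    congr 1
    refine Finset.sum_congr rfl (fun w _ => ?_)
    rw [emb_ext hkn w, emb_add, add_assoc]
  rw [Finset.sum_congr rfl (fun u _ => h1 u), ← Finset.mul_sum, Finset.sum_comm]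
  have h2 : ∀ w : Fin k → ZMod 7, ∑ u : Fin n → ZMod 7,
      F (y + emb n (u + fun i : Fin n => if h : (i : ℕ) < k then w ⟨i, h⟩ else 0)) =
      ∑ u : Fin n → ZMod 7, F (y + emb n u) := by
    intro w
    exact Fintype.sum_equiv (Equiv.addRight
      (fun i : Fin n => if h : (i : ℕ) < k then w ⟨i, h⟩ else 0)) _ _ (fun u => rfl)
  rw [Finset.sum_congr rfl (fun w _ => h2 w), Finset.sum_const, Finset.card_univ,
    nsmul_eq_mul, card_win]
  have hp : (0 : ℝ) < 7 ^ k := by positivity
  rw [← mul_assoc, inv_mul_cancel₀ hp.ne', one_mul]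

lemma avg_sq_le (n : ℕ) (F : G → ℝ) (y : G) :
    (avg n F y) ^ 2 ≤ avg n (fun x => F x ^ 2) y := by
  unfold avg
  have h1 := sq_sum_le_card_mul_sum_sq (s := (Finset.univ : Finset (Fin n → ZMod 7)))
    (f := fun w => F (y + emb n w))
  rw [Finset.card_univ, card_win] at h1
  have hp : (0 : ℝ) < 7 ^ n := by positivity
  rw [mul_pow]
  calc (((7 : ℝ) ^ n)⁻¹) ^ 2 * (∑ w : Fin n → ZMod 7, F (y + emb n w)) ^ 2
      ≤ (((7 : ℝ) ^ n)⁻¹) ^ 2 * (7 ^ n * ∑ w : Fin n → ZMod 7, F (y + emb n w) ^ 2) :=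
        mul_le_mul_of_nonneg_left h1 (by positivity)
    _ = _ := by field_simp

lemma mean_avg_mono (hm : IsMean m) (F : G → ℝ) [Bdd F] {k n : ℕ} (hkn : k ≤ n) :
    m (fun y => avg n F y ^ 2) ≤ m (fun y => avg k F y ^ 2) := by
  rw [← hm.avg_eq n (fun y => avg k F y ^ 2)]
  refine hm.mono _ _ (fun y => ?_)
  rw [← avg_avg hkn F y]
  exact avg_sq_le n (avg k F) y

/-- BB6. -/
theorem tMono : SMono := by
  intro m hm h bh a k n hkn
  unfold loc
  have h1 := mean_avg_mono hm (fun x => h x * cs a x) hkn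
  have h2 := mean_avg_mono hm (fun x => h x * sn a x) hkn
  rw [hm.add' (fun y => avg n (fun x => h x * cs a x) y ^ 2)
      (fun y => avg n (fun x => h x * sn a x) y ^ 2),
    hm.add' (fun y => avg k (fun x => h x * cs a x) y ^ 2)
      (fun y => avg k (fun x => h x * sn a x) y ^ 2)]
  exact add_le_add h1 h2

lemma mean_avg_lim (hm : IsMean m) (he : Erg m) (F : G → ℝ) [Bdd F] :
    Tendsto (fun n => m (fun y => avg n F y ^ 2)) atTop (𝓝 ((m F) ^ 2)) := by
  have h1 : ∀ n, m (fun y => avg n F y ^ 2) = m (fun y => (avg n F y - m F) ^ 2) + (m F) ^ 2 := by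
    intro n
    have e1 : (fun y => (avg n F y - m F) ^ 2) =
        fun y => (avg n F y ^ 2 - (2 * m F) * avg n F y) + (m F) ^ 2 := by
      funext y; ring
    rw [e1, hm.add' (fun y => avg n F y ^ 2 - (2 * m F) * avg n F y) (fun _ => (m F) ^ 2),
      hm.sub (fun y => avg n F y ^ 2) (fun y => (2 * m F) * avg n F y),
      hm.smul' (2 * m F) (avg n F), hm.avg_eq n F, hm.const]
    ring
  have h2 := (he F inferInstance).add_const ((m F) ^ 2)
  rw [zero_add] at h2
  refine h2.congr (fun n => (h1 n).symm)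

/-- BB8. -/
theorem tLim : SLim := by
  intro m hm he h bh a
  have h1 := mean_avg_lim hm he (fun x => h x * cs a x)
  have h2 := mean_avg_lim hm he (fun x => h x * sn a x)
  refine (h1.add h2).congr (fun n => ?_)
  unfold loc
  rw [hm.add' (fun y => avg n (fun x => h x * cs a x) y ^ 2)
      (fun y => avg n (fun x => h x * sn a x) y ^ 2)]

/-- BB9. -/
theorem tKon : SMono → SDep → SLim → SKon := by
  intro hMono hDep hLim m hm he h bh κ hc η hη
  by_contra hcon
  push Not at hcon
  choose a ha using hcon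
  -- ultrafilter limit
  let u : Ultrafilter ℕ := Ultrafilter.of atTop
  have hu : (u : Filter ℕ) ≤ atTop := Ultrafilter.of_le atTop
  have hlim : ∀ i : ℕ, ∃ x : ZMod 7, ∀ᶠ n in (u : Filter ℕ), a n i = x := by
    intro i
    obtain ⟨x, hx⟩ := Ultrafilter.eq_pure_of_finite (u.map (fun n => a n i))
    refine ⟨x, ?_⟩
    have h1 : {x} ∈ u.map (fun n => a n i) := by
      rw [hx]
      exact Ultrafilter.mem_pure.mpr rfl
    rw [Ultrafilter.mem_map] at h1
    exact h1
  choose b hb using hlim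
  have hk : ∀ k : ℕ, κ + η ≤ m (loc k b h) := by
    intro k
    have h1 : ∀ᶠ n in (u : Filter ℕ), ∀ i ∈ Finset.range k, a n i = b i :=
      (Filter.eventually_all_finset _).mpr (fun i _ => hb i)
    have h2 : ∀ᶠ n in (u : Filter ℕ), k ≤ n := hu (Filter.eventually_ge_atTop k)
    obtain ⟨n, hn1, hn2⟩ := (h1.and h2).exists
    have h3 : loc k b h = loc k (a n) h :=
      hDep k b (a n) h (fun i hi => (hn1 i (Finset.mem_range.mpr hi)).symm)
    rw [h3]
    exact (ha n).le.trans (hMono m hm h bh (a n) k n hn2)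
  have h4 := ge_of_tendsto' (hLim m hm he h bh b) hk
  linarith [hc b]

end Pool.Agent.Q199.BB
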