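import Pool.Agent.Q199.BB.Step
import Pool.Agent.Q199.BB.Cnd
import Pool.Agent.Q199.BB.Win
import Pool.Agent.Q199.BB.Sharp
import Pool.Agent.Q195.BB.Ft
import Pool.Agent.Q53.BB.Tri
import Pool.Agent.Q53.BB.Fun
import Pool.Agent.Q238.BB.Ext
import Pool.Agent.Q238.BB.Erg
import Pool.Agent.Q238.BB.Fol

/-!
# Project BB: main theorem
-/

namespace Pool.Agent.Q199.BB

/-- Sets without `B + B` in `F_7^ω` have upper density at most `1 - (2/3) α` along every Folner
sequence with doubling ratio `α`. -/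
theorem bound (A : Set G) (hA : ¬ HasBB A) (Φ : ℕ → Finset G) (hΦ : IsFolner Φ) :
    udens Φ A ≤ 1 - 2 / 3 * dratio Φ := by
  have hPars := Pool.Agent.Q195.BB.tPars
  have hConv := Pool.Agent.Q195.BB.tConv
  have hWin : SWin := tWin hPars hConv
  have hKon : SKon := tKon tMono Pool.Agent.Q195.BB.tDep tLim
  have hStep : SStep := tStep hWin hKon tCnd tDbl (tStab tCnd) (tChar tCnd)
  have hTri : STri := Pool.Agent.Q53.BB.tTri tCnd tDbl (tStab tCnd)
  have hFol : SFol := Pool.Agent.Q238.BB.tFol Pool.Agent.Q53.BB.tFun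
  exact density_bound Pool.Agent.Q238.BB.tExt Pool.Agent.Q238.BB.tErg hStep hTri hFol A hA Φ hΦ

end Pool.Agent.Q199.BB
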