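import Pool.Agent.Q199.BB.Basic

/-!
# Project BB: the step of the construction (BB14)
-/

namespace Pool.Agent.Q199.BB

open Filter Topology

variable {m : (G → ℝ) → ℝ}

/-- Weak mixing: correlations with a function without large characters are small. -/
lemma weak_mixing (hWin : SWin) (hKon : SKon) (hm : IsMean m) (he : Erg m) (f g h : G → ℝ)
    (hf : ∀ x, |f x| ≤ 1) (hg : ∀ x, |g x| ≤ 1) [hh : Bdd h] (κ : ℝ) (hκ : 0 ≤ κ)
    (hc : ∀ a : ℕ → ZMod 7, m (fun x => h x * cs a x) ^ 2 + m (fun x => h x * sn a x) ^ 2 ≤ κ ^ 2) :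
    |m (fun b => f b * m (fun y => g y * h (y + b)))| ≤ κ := by
  have key : ∀ η > 0, |m (fun b => f b * m (fun y => g y * h (y + b)))| ^ 2 ≤ κ ^ 2 + η := by
    intro η hη
    obtain ⟨n, hn⟩ := hKon m hm he h hh (κ ^ 2) hc η hη
    have h0 : 0 ≤ κ ^ 2 + η := by positivity
    have h1 := hWin m hm f g h hf hg hh n (Real.sqrt (κ ^ 2 + η)) (Real.sqrt_nonneg _)
      (fun a => by rw [Real.sq_sqrt h0]; exact hn _)
    calc _ ≤ (Real.sqrt (κ ^ 2 + η)) ^ 2 := pow_le_pow_left₀ (abs_nonneg _) h1 2
      _ = _ := Real.sq_sqrt h0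
  have h2 : |m (fun b => f b * m (fun y => g y * h (y + b)))| ^ 2 ≤ κ ^ 2 :=
    le_of_forall_pos_le_add key
  exact (sq_le_sq₀ (abs_nonneg _) hκ).mp h2

lemma abs_mul_le_one {a b : ℝ} (ha : |a| ≤ 1) (hb : |b| ≤ 1) : |a * b| ≤ 1 := by
  rw [abs_mul]
  calc |a| * |b| ≤ 1 * 1 := mul_le_mul ha hb (abs_nonneg _) (by norm_num)
    _ = 1 := one_mul 1

/-- The same on the cosets of `H`. -/
lemma weak_mixing_coset (hWin : SWin) (hKon : SKon) (hm : IsMean m) (he : Erg m)
    (H : AddSubgroup G) (hH : H.FiniteIndex) (f g h : G → ℝ)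
    (hf : ∀ x, |f x| ≤ 1) (hg : ∀ x, |g x| ≤ 1) [hh : Bdd h] (κ : ℝ) (hκ : 0 ≤ κ)
    (hc : ∀ a : ℕ → ZMod 7, m (fun x => h x * cs a x) ^ 2 + m (fun x => h x * sn a x) ^ 2 ≤ κ ^ 2) :
    |m (fun b => f b * m (fun y => g y * chi (H : Set G) (y - b) * h (y + b)))| ≤
      H.index * κ := by
  classical
  have : Fintype (G ⧸ H) := Fintype.ofFinite _
  let S : G ⧸ H → Set G := fun q => {x | (QuotientAddGroup.mk x : G ⧸ H) = q}
  have hker : ∀ b y : G, chi (H : Set G) (y - b) = ∑ q : G ⧸ H, chi (S q) b * chi (S q) y := by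
    intro b y
    rw [Finset.sum_eq_single (QuotientAddGroup.mk b : G ⧸ H)]
    · have h1 : chi (S (QuotientAddGroup.mk b)) b = 1 := chi_of_mem rfl
      rw [h1, one_mul]
      by_cases h : y - b ∈ (H : Set G)
      · rw [chi_of_mem h, chi_of_mem]
        change (QuotientAddGroup.mk y : G ⧸ H) = QuotientAddGroup.mk b
        rw [eq_comm, QuotientAddGroup.eq]
        rw [neg_add_eq_sub]
        exact h
      · rw [chi_of_notMem h, chi_of_notMem]
        intro h'
        apply h
        have h2 : (QuotientAddGroup.mk b : G ⧸ H) = QuotientAddGroup.mk y := h'.symm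
        rw [QuotientAddGroup.eq, neg_add_eq_sub] at h2
        exact h2
    · intro q _ hq
      have : chi (S q) b = 0 := chi_of_notMem (fun h' => hq (by exact h'.symm))
      rw [this, zero_mul]
    · intro h'; exact absurd (Finset.mem_univ _) h'
  have bg : Bdd g := bdd_of_abs_le hg
  have bf : Bdd f := bdd_of_abs_le hf
  have hinner : ∀ b : G, f b * m (fun y => g y * chi (H : Set G) (y - b) * h (y + b)) =
      ∑ q : G ⧸ H, (f b * chi (S q) b) * m (fun y => (g y * chi (S q) y) * h (y + b)) := by
    intro b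
    have e1 : (fun y => g y * chi (H : Set G) (y - b) * h (y + b)) =
        fun y => ∑ q : G ⧸ H, chi (S q) b * ((g y * chi (S q) y) * h (y + b)) := by
      funext y
      rw [hker b y, Finset.mul_sum, Finset.sum_mul]
      refine Finset.sum_congr rfl (fun q _ => by ring)
    rw [e1, hm.sum Finset.univ (fun q y => chi (S q) b * ((g y * chi (S q) y) * h (y + b)))
      (fun q _ => by infer_instance), Finset.mul_sum]
    refine Finset.sum_congr rfl (fun q _ => ?_)
    rw [hm.smul' (chi (S q) b) (fun y => (g y * chi (S q) y) * h (y + b))]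
    ring
  have e2 : (fun b => f b * m (fun y => g y * chi (H : Set G) (y - b) * h (y + b))) =
      fun b => ∑ q : G ⧸ H, (f b * chi (S q) b) * m (fun y => (g y * chi (S q) y) * h (y + b)) :=
    funext hinner
  have bterm : ∀ q : G ⧸ H, Bdd (fun b => (f b * chi (S q) b) *
      m (fun y => (g y * chi (S q) y) * h (y + b))) := by
    intro q
    have := bdd_inner2 hm (fun y => g y * chi (S q) y) h
    infer_instance
  rw [e2, hm.sum Finset.univ _ (fun q _ => bterm q)]
  calc |∑ q : G ⧸ H, m (fun b => (f b * chi (S q) b) *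
        m (fun y => (g y * chi (S q) y) * h (y + b)))|
      ≤ ∑ q : G ⧸ H, |m (fun b => (f b * chi (S q) b) *
        m (fun y => (g y * chi (S q) y) * h (y + b)))| := Finset.abs_sum_le_sum_abs _ _
    _ ≤ ∑ _q : G ⧸ H, κ := by
        refine Finset.sum_le_sum (fun q _ => ?_)
        exact weak_mixing hWin hKon hm he _ _ h
          (fun x => abs_mul_le_one (hf x) (abs_chi_le _ _))
          (fun x => abs_mul_le_one (hg x) (abs_chi_le _ _)) κ hκ hc
    _ = H.index * κ := by
        rw [Finset.sum_const, Finset.card_univ, nsmul_eq_mul]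
        congr 2
        rw [← Nat.card_eq_fintype_card]
        rfl

/-- The conditional average of `1` is `1`. -/
lemma cnd_one (hCnd : SCnd) (hm : IsMean m) (H : AddSubgroup G) (hH : H.FiniteIndex) (y : G) :
    cnd m H (fun _ => 1) y = 1 := by
  have hconst : ∀ y, cnd m H (fun _ => 1) y = cnd m H (fun _ => 1) 0 := by
    intro y
    unfold cnd
    congr 1
    have h1 : (fun x => (1 : ℝ) * chi (H : Set G) (x - y)) =
        fun x => (fun z => (1 : ℝ) * chi (H : Set G) (z - 0)) (x - y) := by
      funext x; simp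
    rw [h1]
    exact hm.shift_sub y (fun z => (1 : ℝ) * chi (H : Set G) (z - 0))
  have h2 := hCnd m hm H hH (fun _ => 1) (fun _ => 1) inferInstance inferInstance
    (fun _ _ _ => rfl)
  have h3 : (fun x => cnd m H (fun _ => 1) x * (1 : ℝ)) =
      fun _ => cnd m H (fun _ => 1) 0 := by
    funext x; rw [hconst x, mul_one]
  rw [h3, hm.const, hm.const] at h2
  rw [hconst y, ← h2]
  norm_num

lemma cnd_mean (hCnd : SCnd) (hm : IsMean m) (H : AddSubgroup G) (hH : H.FiniteIndex)
    (f : G → ℝ) [Bdd f] : m (cnd m H f) = m f := by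
  have h2 := hCnd m hm H hH f (fun _ => 1) inferInstance inferInstance (fun _ _ _ => rfl)
  simpa using h2.symm

lemma cnd_nonneg (hm : IsMean m) (H : AddSubgroup G) (f : G → ℝ) [Bdd f] (hf : ∀ x, 0 ≤ f x)
    (y : G) : 0 ≤ cnd m H f y := by
  unfold cnd
  refine mul_nonneg (Nat.cast_nonneg _) (hm.nonneg _ (by infer_instance) (fun x => ?_))
  exact mul_nonneg (hf x) (chi_nonneg _ _)

lemma cnd_le_one (hCnd : SCnd) (hm : IsMean m) (H : AddSubgroup G) (hH : H.FiniteIndex)
    (f : G → ℝ) [Bdd f] (hf : ∀ x, f x ≤ 1) (y : G) : cnd m H f y ≤ 1 := by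
  rw [← cnd_one hCnd hm H hH y]
  unfold cnd
  refine mul_le_mul_of_nonneg_left ?_ (Nat.cast_nonneg _)
  refine hm.mono _ _ (fun x => ?_)
  exact mul_le_mul_of_nonneg_right (hf x) (chi_nonneg _ _)

/-- Periodic functions. -/
def Per (H : AddSubgroup G) (F : G → ℝ) : Prop := ∀ k ∈ H, ∀ y, F (y + k) = F y

lemma per_cnd (H : AddSubgroup G) (f : G → ℝ) : Per H (cnd m H f) :=
  fun _ hk y => cnd_periodic H f hk y

lemma Per.mono {H H' : AddSubgroup G} (h : H' ≤ H) {F : G → ℝ} (hF : Per H F) : Per H' F :=
  fun k hk y => hF k (h hk) y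

lemma Per.dbl {H : AddSubgroup G} {F : G → ℝ} (hF : Per H F) : Per H (fun x => F (2 • x)) := by
  intro k hk y
  change F (2 • (y + k)) = F (2 • y)
  rw [smul_add]
  exact hF _ (H.nsmul_mem hk 2) _

/-- The difference of two levels is small in `L¹`, also after doubling. -/
lemma level_dbl (hDbl : SDbl) (hm : IsMean m) (H : AddSubgroup G) (hH : H.FiniteIndex)
    (D : G → ℝ) [Bdd D] (hD : Per H D) (δ : ℝ) (hδ : 0 ≤ δ)
    (h : m (fun x => D x ^ 2) ≤ δ ^ 2) (c : G → ℝ) (hc : ∀ x, |c x| ≤ 1) :
    |m (fun x => c x * D (2 • x))| ≤ δ := by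
  have bc : Bdd c := bdd_of_abs_le hc
  have h1 := hm.cauchy c (fun x => D (2 • x))
  have h2 : m (fun x => c x ^ 2) ≤ 1 := hm.le_of_le (fun x => by
    have := hc x
    rw [← sq_abs]
    exact pow_le_one₀ (abs_nonneg _) this)
  have h3 : m (fun x => D (2 • x) ^ 2) = m (fun x => D x ^ 2) :=
    hDbl m hm H hH (fun x => D x ^ 2) inferInstance (fun k hk y => by
      change D (y + k) ^ 2 = D y ^ 2
      rw [hD k hk y])
  have h4 : 0 ≤ m (fun x => D x ^ 2) := hm.nonneg _ inferInstance (fun x => sq_nonneg _)
  have h5 : |m (fun x => c x * D (2 • x))| ^ 2 ≤ δ ^ 2 := by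
    rw [sq_abs]
    refine h1.trans ?_
    rw [h3]
    calc m (fun x => c x ^ 2) * m (fun x => D x ^ 2) ≤ 1 * m (fun x => D x ^ 2) :=
          mul_le_mul_of_nonneg_right h2 h4
      _ ≤ δ ^ 2 := by rw [one_mul]; exact h
  exact (sq_le_sq₀ (abs_nonneg _) hδ).mp h5

lemma l1_le (hm : IsMean m) (D : G → ℝ) [Bdd D] (δ : ℝ) (hδ : 0 ≤ δ)
    (h : m (fun x => D x ^ 2) ≤ δ ^ 2) : m (fun x => |D x|) ≤ δ := by
  have h1 := hm.sq_le (fun x => |D x|)
  have h2 : (fun x => |D x| ^ 2) = fun x => D x ^ 2 := by funext x; rw [sq_abs]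
  rw [h2] at h1
  exact (sq_le_sq₀ (hm.nonneg _ inferInstance (fun x => abs_nonneg _)) hδ).mp (h1.trans h)

/-- Average over `b` of the mean over the coset of `b`. -/
lemma coset_mean (hCnd : SCnd) (hm : IsMean m) (H : AddSubgroup G) (hH : H.FiniteIndex)
    (q : G → ℝ) [Bdd q] :
    m (fun b => (H.index : ℝ) * m (fun y => q y * chi (H : Set G) (y - b))) = m q :=
  cnd_mean hCnd hm H hH q

/-- The same with the point `y + b`. -/
lemma coset_mean_dbl (hCnd : SCnd) (hDbl : SDbl) (hm : IsMean m) (H : AddSubgroup G)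
    (hH : H.FiniteIndex) (q : G → ℝ) [Bdd q] :
    m (fun b => (H.index : ℝ) * m (fun y => q (y + b) * chi (H : Set G) (y - b))) = m q := by
  have h1 : (fun b => (H.index : ℝ) * m (fun y => q (y + b) * chi (H : Set G) (y - b))) =
      fun b => cnd m H q (2 • b) := by
    funext b
    unfold cnd
    congr 1
    rw [← hm.shift b (fun z => q z * chi (H : Set G) (z - 2 • b)) (by infer_instance)]
    congr 1
    funext y
    have : y + b - 2 • b = y - b := by rw [two_nsmul]; abel
    rw [this]
  have bq := bdd_cnd hm H q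
  rw [h1, hDbl m hm H hH (cnd m H q) bq (per_cnd H q)]
  exact cnd_mean hCnd hm H hH q

/-- The main term. -/
lemma main_term (hCnd : SCnd) (hm : IsMean m) (H : AddSubgroup G) (hH : H.FiniteIndex)
    (c P : G → ℝ) [Bdd c] [Bdd P] (hP : Per H P) :
    (m (fun y => c y * P (2 • y))) ^ 2 ≤
      m (fun b => c b * ((H.index : ℝ) *
        m (fun y => (c y * P (2 • y) * P (y + b)) * chi (H : Set G) (y - b)))) := by
  have h1 : (fun b => c b * ((H.index : ℝ) *
        m (fun y => (c y * P (2 • y) * P (y + b)) * chi (H : Set G) (y - b)))) =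
      fun b => c b * (cnd m H c b * P (2 • b) ^ 2) := by
    funext b
    congr 1
    have h2 : (fun y => (c y * P (2 • y) * P (y + b)) * chi (H : Set G) (y - b)) =
        fun y => P (2 • b) ^ 2 * (c y * chi (H : Set G) (y - b)) := by
      funext y
      by_cases h : y - b ∈ (H : Set G)
      · have e1 : P (2 • y) = P (2 • b) := by
          have := hP (2 • (y - b)) (H.nsmul_mem h 2) (2 • b)
          rw [← this]
          congr 1
          rw [← smul_add]
          congr 1
          abel
        have e2 : P (y + b) = P (2 • b) := by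
          have := hP (y - b) h (2 • b)
          rw [← this]
          congr 1
          rw [two_nsmul]
          abel
        rw [e1, e2]
        ring
      · rw [chi_of_notMem h]
        ring
    rw [h2, hm.smul' (P (2 • b) ^ 2) (fun y => c y * chi (H : Set G) (y - b))]
    unfold cnd
    ring
  have bc := bdd_cnd hm H c
  rw [h1]
  have h3 := hCnd m hm H hH c (fun b => cnd m H c b * P (2 • b) ^ 2) inferInstance
    (by infer_instance) (by
      intro k hk y
      have e1 := per_cnd (m := m) H c k hk y
      have e2 := hP.dbl k hk y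
      simp only at e2
      rw [e1, e2])
  rw [h3]
  have h4 := hCnd m hm H hH c (fun b => P (2 • b)) inferInstance (by infer_instance) hP.dbl
  rw [h4]
  have h5 := hm.sq_le (fun x => cnd m H c x * P (2 • x))
  refine h5.trans (le_of_eq ?_)
  congr 1
  funext x
  ring

/-- The step of the construction. -/
theorem tStep (hWin : SWin) (hKon : SKon) (hCnd : SCnd) (hDbl : SDbl) (hStab : SStab)
    (hChar : SChar) : SStep := by
  intro m hm he A C hpos s
  by_contra hcon
  push Not at hcon
  obtain ⟨ε, hε, H₀, hH₀, hmain⟩ := hpos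
  -- first level
  have hθ : 0 < (ε ^ 2 / 8) ^ 2 := by positivity
  obtain ⟨H, hH, hHH₀, hHst⟩ := hStab m hm (chi A) (abs_chi_le A) ((ε ^ 2 / 8) ^ 2) hθ H₀ hH₀
  have hI : 1 ≤ (H.index : ℝ) := by
    have : H.index ≠ 0 := hH.index_ne_zero
    exact_mod_cast Nat.one_le_iff_ne_zero.mpr this
  set I : ℝ := (H.index : ℝ) with hIdef
  -- second level
  set δ : ℝ := ε ^ 2 / (8 * I ^ 2) with hδdef
  have hδ : 0 < δ := by positivity
  obtain ⟨H', hH', hH'H, hH'st⟩ := hStab m hm (chi A) (abs_chi_le A) (δ ^ 2) (by positivity) H hH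
  set a : G → ℝ := chi A with ha
  set c : G → ℝ := chi C with hc
  set p : G → ℝ := cnd m H' a with hp
  set P : G → ℝ := cnd m H a with hP
  have bp : Bdd p := bdd_cnd hm H' a
  have bP : Bdd P := bdd_cnd hm H a
  have perp : Per H' p := per_cnd H' a
  have perP : Per H P := per_cnd H a
  have hp0 : ∀ x, 0 ≤ p x := cnd_nonneg hm H' a (chi_nonneg A)
  have hp1 : ∀ x, p x ≤ 1 := cnd_le_one hCnd hm H' hH' a (chi_le_one A)
  have hP0 : ∀ x, 0 ≤ P x := cnd_nonneg hm H a (chi_nonneg A)
  have hP1 : ∀ x, P x ≤ 1 := cnd_le_one hCnd hm H hH a (chi_le_one A)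
  have hpabs : ∀ x, |p x| ≤ 1 := fun x => by rw [abs_of_nonneg (hp0 x)]; exact hp1 x
  -- F1
  have F1 : ∀ D : Set G, ¬ Pos m A D → m (fun y => chi D y * p (2 • y)) ≤ 2 * δ := by
    intro D hD
    unfold Pos at hD
    push Not at hD
    obtain ⟨H'', hH'', hle, hlt⟩ := hD δ hδ H' hH'
    have bp'' : Bdd (cnd m H'' a) := bdd_cnd hm H'' a
    have h1 := level_dbl hDbl hm H'' hH'' (fun x => cnd m H'' a x - p x) (by
        intro k hk y
        have e1 := per_cnd (m := m) H'' a k hk y
        have e2 := perp k (hle hk) y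
        simp only
        rw [e1, e2]) δ hδ.le (hH'st H'' hH'' hle) (chi D) (abs_chi_le D)
    have h2 : m (fun x => chi D x * (cnd m H'' a (2 • x) - p (2 • x))) =
        m (fun y => chi D y * cnd m H'' a (2 • y)) - m (fun y => chi D y * p (2 • y)) := by
      rw [← hm.sub (fun y => chi D y * cnd m H'' a (2 • y)) (fun y => chi D y * p (2 • y))]
      congr 1
      funext x
      ring
    rw [h2] at h1
    have h3 := (abs_le.mp h1).1
    linarith
  -- F3
  have F3 : m (fun b => c b * m (fun y => (c y * p (2 • y)) * chi (H : Set G) (y - b) *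
      a (y + b))) ≤ 2 * δ := by
    have binner : Bdd (fun b => m (fun y => (c y * p (2 • y)) * chi (H : Set G) (y - b) *
        a (y + b))) := by
      refine bdd_inner hm (fun b y => (c y * p (2 • y)) * chi (H : Set G) (y - b) * a (y + b))
        (C := 1) (fun b y => ?_)
      exact abs_mul_le_one (abs_mul_le_one (abs_mul_le_one (abs_chi_le _ _) (hpabs _))
        (abs_chi_le _ _)) (abs_chi_le _ _)
    have hptw : ∀ b, c b * m (fun y => (c y * p (2 • y)) * chi (H : Set G) (y - b) *
        a (y + b)) ≤ 2 * δ + chi (s : Set G) b := by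
      intro b
      have hin1 : m (fun y => (c y * p (2 • y)) * chi (H : Set G) (y - b) * a (y + b)) ≤ 1 := by
        refine hm.le_of_le (fun y => ?_)
        exact (le_abs_self _).trans (abs_mul_le_one (abs_mul_le_one
          (abs_mul_le_one (abs_chi_le _ _) (hpabs _)) (abs_chi_le _ _)) (abs_chi_le _ _))
      by_cases hbC : b ∈ C
      · have e1 : c b = 1 := chi_of_mem hbC
        rw [e1, one_mul]
        by_cases hbs : b ∈ s
        · have e2 : chi (s : Set G) b = 1 := chi_of_mem (by exact_mod_cast hbs)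
          rw [e2]
          linarith
        · have e2 : chi (s : Set G) b = 0 := chi_of_notMem (by exact_mod_cast hbs)
          rw [e2, add_zero]
          refine le_trans (hm.mono _ (fun y => chi {y | y ∈ C ∧ y + b ∈ A} y * p (2 • y))
            (fun y => ?_)) (F1 _ (hcon b hbC hbs))
          have e3 : chi {y | y ∈ C ∧ y + b ∈ A} y = c y * a (y + b) := by
            by_cases h1 : y ∈ C
            · by_cases h2 : y + b ∈ A
              · rw [chi_of_mem (show y ∈ {y | y ∈ C ∧ y + b ∈ A} from ⟨h1, h2⟩), hc, ha,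
                  chi_of_mem h1, chi_of_mem h2, one_mul]
              · rw [chi_of_notMem (show y ∉ {y | y ∈ C ∧ y + b ∈ A} from fun h => h2 h.2), ha,
                  chi_of_notMem h2, mul_zero]
            · rw [chi_of_notMem (show y ∉ {y | y ∈ C ∧ y + b ∈ A} from fun h => h1 h.1), hc,
                chi_of_notMem h1, zero_mul]
          rw [e3]
          have h1 : 0 ≤ c y * a (y + b) * p (2 • y) :=
            mul_nonneg (mul_nonneg (chi_nonneg _ _) (chi_nonneg _ _)) (hp0 _)
          have h2 := mul_le_mul_of_nonneg_left (chi_le_one (H : Set G) (y - b)) h1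
          calc c y * p (2 • y) * chi (H : Set G) (y - b) * a (y + b)
              = c y * a (y + b) * p (2 • y) * chi (H : Set G) (y - b) := by ring
            _ ≤ c y * a (y + b) * p (2 • y) * 1 := h2
            _ = c y * a (y + b) * p (2 • y) := mul_one _
      · have e1 : c b = 0 := chi_of_notMem hbC
        rw [e1, zero_mul]
        have := chi_nonneg (s : Set G) b
        linarith
    have h1 := hm.mono _ (fun b => 2 * δ + chi (s : Set G) b) hptw
    rw [hm.add' (fun _ => 2 * δ) (chi (s : Set G)), hm.const, hm.finset_null, add_zero] at h1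
    exact h1
  -- F4
  have F4 : |m (fun b => c b * m (fun y => (c y * p (2 • y)) * chi (H : Set G) (y - b) *
      (fun x => a x - p x) (y + b)))| ≤ I * δ := by
    refine weak_mixing_coset hWin hKon hm he H hH c (fun y => c y * p (2 • y))
      (fun x => a x - p x) (abs_chi_le C)
      (fun x => abs_mul_le_one (abs_chi_le _ _) (hpabs _)) δ hδ.le ?_
    exact hChar m hm a inferInstance (δ ^ 2) H' hH' hH'st
  -- boundedness of inner means
  have bX1 : Bdd (fun b => m (fun y => (c y * p (2 • y)) * chi (H : Set G) (y - b) *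
      a (y + b))) := by
    refine bdd_inner hm (fun b y => (c y * p (2 • y)) * chi (H : Set G) (y - b) * a (y + b))
      (C := 1) (fun b y => ?_)
    exact abs_mul_le_one (abs_mul_le_one (abs_mul_le_one (abs_chi_le _ _) (hpabs _))
      (abs_chi_le _ _)) (abs_chi_le _ _)
  have bX2 : Bdd (fun b => m (fun y => (c y * p (2 • y)) * chi (H : Set G) (y - b) *
      p (y + b))) := by
    refine bdd_inner hm (fun b y => (c y * p (2 • y)) * chi (H : Set G) (y - b) * p (y + b))
      (C := 1) (fun b y => ?_)
    exact abs_mul_le_one (abs_mul_le_one (abs_mul_le_one (abs_chi_le _ _) (hpabs _))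
      (abs_chi_le _ _)) (hpabs _)
  have hPabs : ∀ x, |P x| ≤ 1 := fun x => by rw [abs_of_nonneg (hP0 x)]; exact hP1 x
  have bX3 : Bdd (fun b => m (fun y => (c y * P (2 • y) * P (y + b)) *
      chi (H : Set G) (y - b))) := by
    refine bdd_inner hm (fun b y => (c y * P (2 • y) * P (y + b)) * chi (H : Set G) (y - b))
      (C := 1) (fun b y => ?_)
    exact abs_mul_le_one (abs_mul_le_one (abs_mul_le_one (abs_chi_le _ _) (hPabs _))
      (hPabs _)) (abs_chi_le _ _)
  -- F4'
  have F4' : I * m (fun b => c b * m (fun y => (c y * p (2 • y)) * chi (H : Set G) (y - b) *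
      p (y + b))) ≤ I * (2 * δ + I * δ) := by
    refine mul_le_mul_of_nonneg_left ?_ (by linarith)
    have e1 : (fun b => c b * m (fun y => (c y * p (2 • y)) * chi (H : Set G) (y - b) *
        (fun x => a x - p x) (y + b))) =
        fun b => c b * m (fun y => (c y * p (2 • y)) * chi (H : Set G) (y - b) * a (y + b)) -
          c b * m (fun y => (c y * p (2 • y)) * chi (H : Set G) (y - b) * p (y + b)) := by
      funext b
      rw [← mul_sub, ← hm.sub (fun y => (c y * p (2 • y)) * chi (H : Set G) (y - b) * a (y + b))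
        (fun y => (c y * p (2 • y)) * chi (H : Set G) (y - b) * p (y + b))]
      congr 2
      funext y
      ring
    rw [e1, hm.sub (fun b => c b * m (fun y => (c y * p (2 • y)) * chi (H : Set G) (y - b) *
        a (y + b))) (fun b => c b * m (fun y => (c y * p (2 • y)) * chi (H : Set G) (y - b) *
          p (y + b)))] at F4
    have := (abs_le.mp F4).1
    linarith
  -- F5
  set r : G → ℝ := fun x => |p x - P x| with hr
  have br : Bdd r := by rw [hr]; infer_instance
  have hr0 : ∀ x, 0 ≤ r x := fun x => abs_nonneg _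
  have perr : Per H' r := by
    intro k hk y
    rw [hr]
    simp only
    rw [perp k hk y, (perP.mono hH'H) k hk y]
  have hmr : m r ≤ ε ^ 2 / 8 :=
    l1_le hm (fun x => p x - P x) (ε ^ 2 / 8) (by positivity) (hHst H' hH' hH'H)
  have hmr2 : m (fun x => r (2 • x)) = m r := hDbl m hm H' hH' r br perr
  have bR1 : Bdd (fun b => m (fun y => r (2 • y) * chi (H : Set G) (y - b))) := by
    obtain ⟨K, hK⟩ := br.out
    refine bdd_inner hm (fun b y => r (2 • y) * chi (H : Set G) (y - b)) (C := K) (fun b y => ?_)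
    rw [abs_mul]
    calc |r (2 • y)| * |chi (H : Set G) (y - b)| ≤ |r (2 • y)| * 1 :=
          mul_le_mul_of_nonneg_left (abs_chi_le _ _) (abs_nonneg _)
      _ ≤ K := by rw [mul_one]; exact hK _
  have bR2 : Bdd (fun b => m (fun y => r (y + b) * chi (H : Set G) (y - b))) := by
    obtain ⟨K, hK⟩ := br.out
    refine bdd_inner hm (fun b y => r (y + b) * chi (H : Set G) (y - b)) (C := K) (fun b y => ?_)
    rw [abs_mul]
    calc |r (y + b)| * |chi (H : Set G) (y - b)| ≤ |r (y + b)| * 1 :=
          mul_le_mul_of_nonneg_left (abs_chi_le _ _) (abs_nonneg _)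
      _ ≤ K := by rw [mul_one]; exact hK _
  have R1 : m (fun b => I * m (fun y => r (2 • y) * chi (H : Set G) (y - b))) ≤ ε ^ 2 / 8 := by
    rw [hIdef, coset_mean hCnd hm H hH (fun y => r (2 • y)), hmr2]
    exact hmr
  have R2 : m (fun b => I * m (fun y => r (y + b) * chi (H : Set G) (y - b))) ≤ ε ^ 2 / 8 := by
    rw [hIdef, coset_mean_dbl hCnd hDbl hm H hH r]
    exact hmr
  have F5 : m (fun b => c b * (I * m (fun y => (c y * P (2 • y) * P (y + b)) *
      chi (H : Set G) (y - b)))) ≤
      I * m (fun b => c b * m (fun y => (c y * p (2 • y)) * chi (H : Set G) (y - b) *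
        p (y + b))) + (ε ^ 2 / 8 + ε ^ 2 / 8) := by
    have hptw : ∀ b, c b * (I * m (fun y => (c y * P (2 • y) * P (y + b)) *
        chi (H : Set G) (y - b))) ≤
        I * (c b * m (fun y => (c y * p (2 • y)) * chi (H : Set G) (y - b) * p (y + b))) +
        (I * m (fun y => r (2 • y) * chi (H : Set G) (y - b)) +
          I * m (fun y => r (y + b) * chi (H : Set G) (y - b))) := by
      intro b
      have h1 : m (fun y => (c y * P (2 • y) * P (y + b)) * chi (H : Set G) (y - b)) ≤
          m (fun y => (c y * p (2 • y)) * chi (H : Set G) (y - b) * p (y + b)) +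
          (m (fun y => r (2 • y) * chi (H : Set G) (y - b)) +
            m (fun y => r (y + b) * chi (H : Set G) (y - b))) := by
        rw [← hm.add' (fun y => r (2 • y) * chi (H : Set G) (y - b))
            (fun y => r (y + b) * chi (H : Set G) (y - b)),
          ← hm.add' (fun y => (c y * p (2 • y)) * chi (H : Set G) (y - b) * p (y + b))
            (fun y => r (2 • y) * chi (H : Set G) (y - b) +
              r (y + b) * chi (H : Set G) (y - b))]
        refine hm.mono _ _ (fun y => ?_)
        have hk0 := chi_nonneg (H : Set G) (y - b)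
        have hk1 := chi_le_one (H : Set G) (y - b)
        have hc0 := chi_nonneg C y
        have hc1 := chi_le_one C y
        have hcore : P (2 • y) * P (y + b) - p (2 • y) * p (y + b) ≤ r (2 • y) + r (y + b) := by
          have e1 : P (2 • y) * P (y + b) - p (2 • y) * p (y + b) =
              (P (2 • y) - p (2 • y)) * P (y + b) + p (2 • y) * (P (y + b) - p (y + b)) := by
            ring
          have e2 : (P (2 • y) - p (2 • y)) * P (y + b) ≤ r (2 • y) := by
            have h1 : P (2 • y) - p (2 • y) ≤ r (2 • y) := by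
              rw [hr]; simp only; rw [abs_sub_comm]; exact le_abs_self _
            calc (P (2 • y) - p (2 • y)) * P (y + b) ≤ r (2 • y) * P (y + b) :=
                  mul_le_mul_of_nonneg_right h1 (hP0 _)
              _ ≤ r (2 • y) * 1 := mul_le_mul_of_nonneg_left (hP1 _) (hr0 _)
              _ = _ := mul_one _
          have e3 : p (2 • y) * (P (y + b) - p (y + b)) ≤ r (y + b) := by
            have h1 : P (y + b) - p (y + b) ≤ r (y + b) := by
              rw [hr]; simp only; rw [abs_sub_comm]; exact le_abs_self _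
            calc p (2 • y) * (P (y + b) - p (y + b)) ≤ p (2 • y) * r (y + b) :=
                  mul_le_mul_of_nonneg_left h1 (hp0 _)
              _ ≤ 1 * r (y + b) := mul_le_mul_of_nonneg_right (hp1 _) (hr0 _)
              _ = _ := one_mul _
          rw [e1]; linarith
        have hsum0 : 0 ≤ r (2 • y) + r (y + b) := add_nonneg (hr0 _) (hr0 _)
        have h2 : c y * (P (2 • y) * P (y + b) - p (2 • y) * p (y + b)) ≤
            r (2 • y) + r (y + b) := by
          calc c y * (P (2 • y) * P (y + b) - p (2 • y) * p (y + b))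
              ≤ c y * (r (2 • y) + r (y + b)) := mul_le_mul_of_nonneg_left hcore hc0
            _ ≤ 1 * (r (2 • y) + r (y + b)) := mul_le_mul_of_nonneg_right hc1 hsum0
            _ = _ := one_mul _
        have h3 := mul_le_mul_of_nonneg_right h2 hk0
        calc (c y * P (2 • y) * P (y + b)) * chi (H : Set G) (y - b)
            = (c y * p (2 • y)) * chi (H : Set G) (y - b) * p (y + b) +
              c y * (P (2 • y) * P (y + b) - p (2 • y) * p (y + b)) *
                chi (H : Set G) (y - b) := by ring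
          _ ≤ (c y * p (2 • y)) * chi (H : Set G) (y - b) * p (y + b) +
              (r (2 • y) + r (y + b)) * chi (H : Set G) (y - b) := by linarith
          _ = _ := by ring
      have hc0 : 0 ≤ c b := chi_nonneg C b
      have hc1 : c b ≤ 1 := chi_le_one C b
      have hR0 : 0 ≤ m (fun y => r (2 • y) * chi (H : Set G) (y - b)) +
            m (fun y => r (y + b) * chi (H : Set G) (y - b)) := by
        refine add_nonneg (hm.nonneg _ (by infer_instance) (fun y => ?_))
          (hm.nonneg _ (by infer_instance) (fun y => ?_))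
        · exact mul_nonneg (hr0 _) (chi_nonneg _ _)
        · exact mul_nonneg (hr0 _) (chi_nonneg _ _)
      have hI0 : 0 ≤ I := by linarith
      have h2 := mul_le_mul_of_nonneg_left h1 (mul_nonneg hc0 hI0)
      have h3 : c b * I * (m (fun y => r (2 • y) * chi (H : Set G) (y - b)) +
            m (fun y => r (y + b) * chi (H : Set G) (y - b))) ≤
          1 * I * (m (fun y => r (2 • y) * chi (H : Set G) (y - b)) +
            m (fun y => r (y + b) * chi (H : Set G) (y - b))) :=
        mul_le_mul_of_nonneg_right (mul_le_mul_of_nonneg_right hc1 hI0) hR0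
      nlinarith [h2, h3]
    have h4 := hm.mono _ _ hptw
    rw [hm.add' (fun b => I * (c b * m (fun y => (c y * p (2 • y)) * chi (H : Set G) (y - b) *
        p (y + b)))) (fun b => I * m (fun y => r (2 • y) * chi (H : Set G) (y - b)) +
          I * m (fun y => r (y + b) * chi (H : Set G) (y - b))),
      hm.smul' I (fun b => c b * m (fun y => (c y * p (2 • y)) * chi (H : Set G) (y - b) *
        p (y + b))),
      hm.add' (fun b => I * m (fun y => r (2 • y) * chi (H : Set G) (y - b)))
        (fun b => I * m (fun y => r (y + b) * chi (H : Set G) (y - b)))] at h4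
    linarith
  have F6 := main_term hCnd hm H hH c P perP
  have F7 : ε ^ 2 ≤ (m (fun y => c y * P (2 • y))) ^ 2 :=
    pow_le_pow_left₀ hε.le (hmain H hH hHH₀) 2
  have F8 : I * (2 * δ + I * δ) ≤ 3 * ε ^ 2 / 8 := by
    have h1 : I ≤ I ^ 2 := by nlinarith
    have h2 : I ^ 2 * δ = ε ^ 2 / 8 := by
      rw [hδdef]
      have : I ≠ 0 := by linarith
      field_simp
    nlinarith [mul_le_mul_of_nonneg_right h1 hδ.le]
  have hε2 : 0 < ε ^ 2 := by positivity
  linarith

end Pool.Agent.Q199.BB
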