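import Pool.Agent.Q199.BB.Defs

/-!
# Project BB: statements of the lemma jobs

Paper proof.  `G = F_7^ω`.  Suppose `A ⊆ G` contains no `B + B` with `B` infinite; then the same
holds for `A/2` and `A/4`.  Claim: `m(A) + m(A/2) + m(A/4) ≤ 1` for every invariant mean `m`.
If not, take an extreme (hence ergodic) mean with sum `> 1` (`SExt`, `SErg`).  By `STri` one of the
three pairs `(A/2^(i+1), A/2^i)` is `Pos`.  By `SStep`, `Pos m A C` can be kept when `C` is
replaced by `C ∩ (A - b)` for some new `b ∈ C`, so starting with `C = A/2` we construct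
`B = {b_1, b_2, ...}` with `2 b_i ∈ A`, `b_i + b_j ∈ A`.  Finally `SFol` turns the bound for
invariant means into the bound `1 - (2/3) α` for the upper density along Folner sequences.
-/

namespace Pool.Agent.Q199.BB

open Filter Topology

/-- BB1: extreme means.  Proof: Let `K` be the set of all `m : (G → ℝ) → ℝ` with `IsMean m` and
`m f = 0` for unbounded `f`; it is a closed subset of the compact product of the intervals
`[-C_f, C_f]`, convex, nonempty (modify the given `m` on unbounded functions).  The face of `K` on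
which `m ↦ m F` is maximal is compact, nonempty, so it has an extreme point `m'`
(`IsCompact.extremePoints_nonempty`), which is extreme in `K`.  If `m1 ≤ m'` is positive and
invariant, put `c = m1 1 ∈ [0,1]`; for `0 < c < 1`
`m' = c (m1/c) + (1-c) ((m'-m1)/(1-c))` (both modified to be `0` on unbounded functions), so
`m1 = c m'`; for `c = 0` `|m1 f| ≤ C_f m1 1 = 0`; for `c = 1` the same for `m' - m1`. -/
def SExt : Prop := ∀ m : (G → ℝ) → ℝ, IsMean m → ∀ F : G → ℝ, Bdd F →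
  ∃ m' : (G → ℝ) → ℝ, IsMean m' ∧ Ext m' ∧ m F ≤ m' F

/-- BB2: extreme means are ergodic.  Proof: it is enough to treat `0 ≤ f ≤ 1` (affine change).
Write `A_n = avg n`.  Shift invariance gives `m (g * A_n f) = m (A_n g * f)`;
`A_n (A_k f) = A_k f` for `k ≥ n`.  So `m (A_n f * A_k f) = m ((A_k f)^2)` for `k ≥ n`, hence
`m ((A_n f - A_k f)^2) = m ((A_n f)^2) - m ((A_k f)^2)`: the numbers `E n = m ((A_n f)^2)` decrease
and `A_n f` is Cauchy.  By Cauchy-Schwarz `m1 g = lim m (g * A_n f)` exists for bounded `g`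
(take `m1 g = 0` for unbounded `g`, e.g. `m1 g = limUnder ..` restricted); it is positive linear,
`≤ m` on nonnegative functions, shift invariant (for `h` in the window `A_n f (x + h) = A_n f x`),
`m1 1 = m f`.  So `m1 = m f * m` and `lim E n = lim m (f * A_n f) = m1 f = (m f)^2`, and
`m ((A_n f - m f)^2) = E n - (m f)^2`. -/
def SErg : Prop := ∀ m : (G → ℝ) → ℝ, IsMean m → Ext m → Erg m

/-- BB3: Parseval on the window (finite Fourier analysis on `F_7^n`; the phase `ξ_a(y)` drops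
out of the modulus). -/
def SPars : Prop := ∀ (n : ℕ) (f : G → ℝ) (y : G),
  ∑ a : Fin n → ZMod 7, loc n (ex a) f y = avg n (fun x => f x ^ 2) y

/-- BB4: the correlation of two window functions in terms of Fourier coefficients. -/
def SConv : Prop := ∀ (n : ℕ) (f h : G → ℝ) (b y : G),
  ((7 : ℝ) ^ n)⁻¹ * ∑ v : Fin n → ZMod 7,
      (((7 : ℝ) ^ n)⁻¹ * ∑ w : Fin n → ZMod 7, f (b + emb n w) * h (y + emb n (v + w))) ^ 2
    = ∑ a : Fin n → ZMod 7, loc n (ex a) f b * loc n (ex a) h y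

/-- BB5: the window inequality.  Proof: `ψ b = m_y (g y * h (y + b))`.  By shift invariance
`m_b (f b * ψ b) = m_b (7^-n ∑_w f (b+w) ψ (b+w))`, and for fixed `b` the inner number is
`m_y (g y * K y)`, `K y = 7^-n ∑_w f (b+w) h (y+b+w)`; by Cauchy-Schwarz and shift invariance its
square is at most `m_y ((7^-n ∑_w f (b+w) h (y+w))^2)
= m_y (7^-n ∑_v (7^-n ∑_w f (b+w) h (y+v+w))^2) = ∑_a loc n a f b * m (loc n a h)` (BB4)
`≤ N^2 ∑_a loc n a f b ≤ N^2` (BB3). -/
def SWin : Prop := ∀ m : (G → ℝ) → ℝ, IsMean m → ∀ f g h : G → ℝ, (∀ x, |f x| ≤ 1) →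
  (∀ x, |g x| ≤ 1) → Bdd h → ∀ (n : ℕ) (N : ℝ), 0 ≤ N →
  (∀ a : Fin n → ZMod 7, m (loc n (ex a) h) ≤ N ^ 2) →
  |m (fun b => f b * m (fun y => g y * h (y + b)))| ≤ N

/-- BB6: `m (loc n a h)` is nonincreasing in `n`.  Proof: for `k ≤ n` the window `F_7^n` is a union
of translates `u + F_7^k`, so `avg n F y` is the average over `u ∈ F_7^n` of `avg k F (y + u)`
(`avg n (avg k F) = avg n F`), Jensen and shift invariance. -/
def SMono : Prop := ∀ m : (G → ℝ) → ℝ, IsMean m → ∀ h : G → ℝ, Bdd h → ∀ (a : ℕ → ZMod 7) (k n : ℕ),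
  k ≤ n → m (loc n a h) ≤ m (loc k a h)

/-- BB7: `loc n a` depends only on the first `n` coordinates of `a` (the phase `ξ_a(y)` drops out
of the modulus). -/
def SDep : Prop := ∀ (n : ℕ) (a a' : ℕ → ZMod 7) (h : G → ℝ), (∀ i < n, a i = a' i) →
  loc n a h = loc n a' h

/-- BB8: for an ergodic mean the local coefficients converge to the global ones.
Proof: `avg n (h * cs a) → m (h * cs a)` in `L²(m)` by `Erg`, the same for `sn`. -/
def SLim : Prop := ∀ m : (G → ℝ) → ℝ, IsMean m → Erg m → ∀ h : G → ℝ, Bdd h → ∀ a : ℕ → ZMod 7,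
  Tendsto (fun n => m (loc n a h)) atTop
    (𝓝 (m (fun x => h x * cs a x) ^ 2 + m (fun x => h x * sn a x) ^ 2))

/-- BB9: uniform smallness of the local coefficients (Koenig).  Proof from BB6, BB7, BB8: if not,
for every `n` there is `a_n` with `m (loc n (a_n) h) > κ + η`; by compactness of `ℕ → ZMod 7`
(sequential: `CompactSpace`, or diagonal argument) there is `a` such that for every `k` there are
infinitely many `n` with `a_n = a` on the first `k` coordinates; then for all `k`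
`m (loc k a h) = m (loc k a_n h) ≥ m (loc n a_n h) > κ + η`, which contradicts BB8. -/
def SKon : Prop := ∀ m : (G → ℝ) → ℝ, IsMean m → Erg m → ∀ h : G → ℝ, Bdd h → ∀ κ : ℝ,
  (∀ a : ℕ → ZMod 7, m (fun x => h x * cs a x) ^ 2 + m (fun x => h x * sn a x) ^ 2 ≤ κ) →
  ∀ η > 0, ∃ n : ℕ, ∀ a : ℕ → ZMod 7, m (loc n a h) ≤ κ + η

/-- BB10: `cnd m H f` is the projection on the `H`-periodic functions.  Proof: the cosets of `H`
have mass `1/index` (they partition `G` and have the same mass by invariance); an `H`-periodic `F`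
is a finite combination of indicators of cosets. -/
def SCnd : Prop := ∀ m : (G → ℝ) → ℝ, IsMean m → ∀ H : AddSubgroup G, H.FiniteIndex →
  ∀ f F : G → ℝ, Bdd f → Bdd F → (∀ k ∈ H, ∀ y, F (y + k) = F y) →
  m (fun x => f x * F x) = m (fun x => cnd m H f x * F x)

/-- BB11: doubling preserves the mean of periodic functions (doubling is a bijection of the
cosets of `H`, since `8 x = x`; all cosets have mass `1/index`). -/
def SDbl : Prop := ∀ m : (G → ℝ) → ℝ, IsMean m → ∀ H : AddSubgroup G, H.FiniteIndex →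
  ∀ F : G → ℝ, Bdd F → (∀ k ∈ H, ∀ y, F (y + k) = F y) → m (fun x => F (2 • x)) = m F

/-- BB12: stable levels.  Proof from BB10: for `H' ≤ H`, with `F = cnd m H f` (`H`-periodic, hence
`H'`-periodic) `m (cnd H' f * cnd H f) = m (f * cnd H f) = m ((cnd H f)^2)`, so
`m ((cnd H' f - cnd H f)^2) = m ((cnd H' f)^2) - m ((cnd H f)^2) ≥ 0`; `m ((cnd H f)^2) ≤ 1`; take
`H` with `m ((cnd H f)^2)` within `δ` of the supremum over the `H ≤ H₀` of finite index. -/
def SStab : Prop := ∀ m : (G → ℝ) → ℝ, IsMean m → ∀ f : G → ℝ, (∀ x, |f x| ≤ 1) →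
  ∀ δ > 0, ∀ H₀ : AddSubgroup G, H₀.FiniteIndex → ∃ H : AddSubgroup G, H.FiniteIndex ∧ H ≤ H₀ ∧
  ∀ H' : AddSubgroup G, H'.FiniteIndex → H' ≤ H →
    m (fun x => (cnd m H' f x - cnd m H f x) ^ 2) ≤ δ

/-- BB13: at a stable level all characters have small coefficients.  Proof from BB10: let
`H' = H ⊓ ker (pr a)`, `D = cnd H' f - cnd H f`; `cs a`, `sn a` are `H'`-periodic, so
`m ((f - cnd H f) * cs a) = m (D * cs a)`, same for `sn a`; with `c = m (D * cs a)`,
`s = m (D * sn a)`: `c^2 + s^2 = m (D * (c * cs a + s * sn a)) ≤ (m (D^2))^(1/2) *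
(c^2 + s^2)^(1/2)` since `(c * cs a + s * sn a)^2 ≤ c^2 + s^2`. -/
def SChar : Prop := ∀ m : (G → ℝ) → ℝ, IsMean m → ∀ f : G → ℝ, Bdd f →
  ∀ (δ : ℝ) (H : AddSubgroup G), H.FiniteIndex →
  (∀ H' : AddSubgroup G, H'.FiniteIndex → H' ≤ H →
    m (fun x => (cnd m H' f x - cnd m H f x) ^ 2) ≤ δ) →
  ∀ a : ℕ → ZMod 7, m (fun x => (f x - cnd m H f x) * cs a x) ^ 2 +
    m (fun x => (f x - cnd m H f x) * sn a x) ^ 2 ≤ δ

/-- BB14: the step of the construction (proved by helper199 from the other jobs). -/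
def SStep : Prop := ∀ m : (G → ℝ) → ℝ, IsMean m → Erg m → ∀ A C : Set G, Pos m A C →
  ∀ s : Finset G, ∃ b ∈ C, b ∉ s ∧ Pos m A {y | y ∈ C ∧ y + b ∈ A}

/-- BB15: the triple inequality.  Proof: put `A_0 = A`, `A_1 = {x | 2x ∈ A}`, `A_2 = {x | 4x ∈ A}`
(indices mod 3; `A_{i+1} = {x | 2x ∈ A_i}` because `8x = x`), `u_i = cnd m H (chi A_i)`, an
`H`-periodic function with values in `[0,1]` and mean `m (chi A_i)`.  For numbers in `[0,1]`
`x + y + z ≤ 1 + min x y + min y z + min z x`.  Apply this to the triangles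
`u_i (y), u_{i-1} (2y), u_{i-2} (4y)`, add over `i`, take means, use BB11 three times:
`m A_0 + m A_1 + m A_2 ≤ 1 + ∑_i m (min (u_{i+1} y) (u_i (2y)))`.  So with
`3 ε = m A_0 + m A_1 + m A_2 - 1 > 0`, for every `H` there is `i` with
`ε ≤ m (min ..)` and `m (u_{i+1} y * u_i (2y)) ≥ m (min^2) ≥ (m min)^2 ≥ ε^2`; by BB10 (with
`F y = u_i (2y)`, periodic) `m (chi A_{i+1} y * u_i (2y)) = m (u_{i+1} y * u_i (2y)) ≥ ε^2`.
Choose `H₀` stable (BB12) at level `δ = (ε^2/2)^2` for all three `chi A_i` (three steps; for the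
second and third step use that a subgroup of a stable subgroup is stable up to the factor `4`,
or argue by contradiction with the pigeonhole principle); let `i` be the index for `H₀`.  For
`H ≤ H₀`: `|m (chi A_{i+1} y * (u_i^H (2y) - u_i^{H₀} (2y)))| ≤
(m ((u_i^H (2y) - u_i^{H₀} (2y))^2))^(1/2) ≤ ε^2/2` (BB11).  So `Pos` holds with `ε^2/2`. -/
def STri : Prop := ∀ m : (G → ℝ) → ℝ, IsMean m → ∀ A : Set G,
  1 < m (chi A) + m (chi {x | 2 • x ∈ A}) + m (chi {x | 4 • x ∈ A}) →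
  Pos m A {x | 2 • x ∈ A} ∨ Pos m {x | 2 • x ∈ A} {x | 4 • x ∈ A} ∨ Pos m {x | 4 • x ∈ A} A

open Classical in
/-- Folner sequence. -/
def IsFolner {K : Type*} [AddCommGroup K] (Φ : ℕ → Finset K) : Prop :=
  ∀ g : K, Tendsto (fun N => (((Φ N).filter (fun x => x - g ∈ Φ N)).card : ℝ) / (Φ N).card)
    atTop (𝓝 1)

open Classical in
/-- Upper density along `Φ`. -/
noncomputable def udens {K : Type*} (Φ : ℕ → Finset K) (A : Set K) : ℝ :=
  limsup (fun N => (((Φ N).filter (fun x => x ∈ A)).card : ℝ) / (Φ N).card) atTop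

open Classical in
/-- Doubling ratio of `Φ`. -/
noncomputable def dratio {K : Type*} [AddCommGroup K] (Φ : ℕ → Finset K) : ℝ :=
  liminf (fun N => (((Φ N).filter (fun x => 2 • x ∈ Φ N)).card : ℝ) / (Φ N).card) atTop

/-- BB16: functionals from Folner sequences.  `Ψ N` is a sequence of finite sets, `Φ N` finite
sets (the normalisation), such that `|Ψ N Δ (Ψ N + g)| / |Φ N| → 0` for every `g`; along the
ultrafilter `u` the limits of `(1/|Φ N|) ∑_{x ∈ Ψ N} f x` define a positive invariant functional.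
If all invariant means satisfy `m A + m (A/2) + m (A/4) ≤ 1`, then by scaling
`lim (|A ∩ Ψ N| + |A/2 ∩ Ψ N| + |A/4 ∩ Ψ N|)/|Φ N| ≤ lim |Ψ N|/|Φ N|`, for every ultrafilter,
which is the following statement. -/
def SFun : Prop := ∀ A : Set G,
  (∀ m : (G → ℝ) → ℝ, IsMean m →
    m (chi A) + m (chi {x | 2 • x ∈ A}) + m (chi {x | 4 • x ∈ A}) ≤ 1) →
  ∀ Φ Ψ : ℕ → Finset G, (∀ N, (Φ N).Nonempty) → (∀ N, Ψ N ⊆ Φ N) →
  (∀ g : G, Tendsto (fun N => ((Ψ N \ (Ψ N).map (addRightEmbedding g)).card : ℝ) / (Φ N).card)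
    atTop (𝓝 0)) →
  ∀ ε > 0, ∀ᶠ N in atTop, ∑ x ∈ Ψ N, (chi A x + chi A (2 • x) + chi A (4 • x)) ≤
    (Ψ N).card + ε * (Φ N).card

open Classical in
/-- BB17: from BB16 to densities.  Proof: let `D x = 2x`, a bijection of `G` with `D^3 = id`.
Put `P N = {x ∈ Φ N | 2x, 4x ∈ Φ N}`, `Q N = {x ∈ Φ N | 2x ∈ Φ N, 4x ∉ Φ N}`; both satisfy the
invariance hypothesis of BB16 (`Q N Δ (Q N + g)` is contained in the union of `Φ N Δ (Φ N + g)` and
of the preimages under `D`, `D^2` of `Φ N Δ (Φ N + 2g)`, `Φ N Δ (Φ N + 4g)`).  `P`, `Q`, `2Q` are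
disjoint subsets of `Φ N`, `D P = P`, and `{x ∈ Φ N | 2x ∈ Φ N} = P ∪ Q`.  Let `E` be the
complement of `A`.  BB16 for `P` and `DP = P` give `3 |E ∩ P| ≥ 2 |P| - ε |Φ|`; BB16 for `Q` gives
`|A ∩ Q| + |A ∩ 2Q| ≤ |Q| + ε |Φ|`, so `|E ∩ Q| + |E ∩ 2Q| ≥ |Q| - ε |Φ|`.  So
`|E ∩ Φ N| ≥ (2/3) |P| + |Q| - 2 ε |Φ| ≥ (2/3) |P ∪ Q| - 2 ε |Φ|`. -/
def SFol : Prop := ∀ A : Set G,
  (∀ m : (G → ℝ) → ℝ, IsMean m →
    m (chi A) + m (chi {x | 2 • x ∈ A}) + m (chi {x | 4 • x ∈ A}) ≤ 1) →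
  ∀ Φ : ℕ → Finset G, IsFolner Φ → udens Φ A ≤ 1 - 2 / 3 * dratio Φ

end Pool.Agent.Q199.BB
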